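import Pool.Agent.NegVar.Protect

/-!
Protecting a small set of variables, for circuits: the functions obtained by fixing the variables
in `P` are computed by double rail circuits whose NOT gates are applied to inputs only.
-/

namespace Pool.Agent.BoolCirc

variable {n : ℕ}

/-- `x` with the variables in `P` fixed to `T` -/
def fixv (P : Finset (Fin n)) (T x : Fin n → Bool) : Fin n → Bool :=
  fun v => if v ∈ P then T v else x v

theorem clean_src (P : Finset (Fin n)) (T : Fin n → Bool) (C₀ : Circuit n) {i : ℕ}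
    (hi : i ≤ C₀.size) (C : Circuit n) (hC : Clean P C)
    (ih : ∀ (j : ℕ) (hj : j < i) (b : Bool), Avail C
      (fun x => xor b (C₀.val (fixv P T x) ⟨j, hj.trans_le hi⟩))
      (C₀.gateDepth ⟨j, hj.trans_le hi⟩ + 1))
    (s : Src n i) (b : Bool) : ∃ C' : Circuit n, Ext C C' ∧ Clean P C' ∧ C'.size ≤ C.size + 1 ∧
      Avail C' (fun x => xor b (s.eval (fixv P T x)
        (fun j => C₀.val (fixv P T x) ⟨j.1, j.2.trans_le hi⟩)))
        (s.depth (fun j => C₀.gateDepth ⟨j.1, j.2.trans_le hi⟩) + 1) := by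
  cases s with
  | input v =>
    by_cases hv : v ∈ P
    · refine ⟨C, Ext.refl C, hC, Nat.le_succ _, ?_⟩
      refine (Avail.const C (xor b (T v)) _).congr (fun x => ?_)
      simp [Src.eval, fixv, hv]
    · cases b with
      | false =>
        refine ⟨C, Ext.refl C, hC, Nat.le_succ _, ?_⟩
        refine (Avail.input C v _).congr (fun x => ?_)
        simp [Src.eval, fixv, hv]
      | true =>
        refine ⟨C.snoc (Gate.not (Src.input v)), ext_snoc _ _, hC.snoc _ ?_, le_rfl, ?_⟩
        · intro s hs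
          exact ⟨v, hv, (Gate.not.inj hs).symm⟩
        · refine (avail_snoc C (Gate.not (Src.input v))).congr (fun x => ?_)
          simp [Src.eval, Gate.eval, fixv, hv]
  | const c =>
    refine ⟨C, Ext.refl C, hC, Nat.le_succ _, ?_⟩
    refine (Avail.const C (xor b c) _).congr (fun x => ?_)
    simp [Src.eval]
  | gate j =>
    exact ⟨C, Ext.refl C, hC, Nat.le_succ _, ih j.1 j.2 b⟩

theorem clean_and {P : Finset (Fin n)} {C : Circuit n} (hC : Clean P C)
    {f g : (Fin n → Bool) → Bool} {d e : ℕ} (hf : Avail C f d) (hg : Avail C g e) :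
    ∃ C' : Circuit n, Ext C C' ∧ Clean P C' ∧ C'.size = C.size + 1 ∧
      Avail C' (fun x => f x && g x) (max d e + 1) := by
  obtain ⟨o, h1, h2⟩ := hf
  obtain ⟨p, h3, h4⟩ := hg
  refine ⟨C.snoc (Gate.and o p), ext_snoc _ _, hC.snoc _ ?_, rfl, ?_⟩
  · intro s hs
    exact Gate.noConfusion rfl rfl (heq_of_eq hs)
  · refine ((avail_snoc C (Gate.and o p)).mono ?_).congr ?_
    · simp only [Gate.depth]; omega
    · intro x; simp only [Gate.eval, h1, h3]

theorem clean_or {P : Finset (Fin n)} {C : Circuit n} (hC : Clean P C)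
    {f g : (Fin n → Bool) → Bool} {d e : ℕ} (hf : Avail C f d) (hg : Avail C g e) :
    ∃ C' : Circuit n, Ext C C' ∧ Clean P C' ∧ C'.size = C.size + 1 ∧
      Avail C' (fun x => f x || g x) (max d e + 1) := by
  obtain ⟨o, h1, h2⟩ := hf
  obtain ⟨p, h3, h4⟩ := hg
  refine ⟨C.snoc (Gate.or o p), ext_snoc _ _, hC.snoc _ ?_, rfl, ?_⟩
  · intro s hs
    exact Gate.noConfusion rfl rfl (heq_of_eq hs)
  · refine ((avail_snoc C (Gate.or o p)).mono ?_).congr ?_
    · simp only [Gate.depth]; omega
    · intro x; simp only [Gate.eval, h1, h3]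

theorem clean_gate (P : Finset (Fin n)) (T : Fin n → Bool) (C₀ : Circuit n) (i : ℕ)
    (hi : i < C₀.size) (C : Circuit n) (hC : Clean P C)
    (ih : ∀ (j : ℕ) (hj : j < i) (b : Bool), Avail C
      (fun x => xor b (C₀.val (fixv P T x) ⟨j, hj.trans hi⟩))
      (C₀.gateDepth ⟨j, hj.trans hi⟩ + 1)) (b : Bool) :
    ∃ C' : Circuit n, Ext C C' ∧ Clean P C' ∧ C'.size ≤ C.size + 3 ∧
      Avail C' (fun x => xor b (C₀.val (fixv P T x) ⟨i, hi⟩)) (C₀.gateDepth ⟨i, hi⟩ + 1) := by
  have hval : ∀ x, C₀.val x ⟨i, hi⟩ = (C₀.gate ⟨i, hi⟩).eval x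
      (fun j => C₀.val x ⟨j.1, j.2.trans hi⟩) := fun x => by rw [Circuit.val]
  have hdep : C₀.gateDepth ⟨i, hi⟩ = (C₀.gate ⟨i, hi⟩).depth
      (fun j => C₀.gateDepth ⟨j.1, j.2.trans hi⟩) := by rw [Circuit.gateDepth]
  rw [hdep]
  simp only [hval]
  generalize C₀.gate ⟨i, hi⟩ = g
  cases g with
  | and s t =>
    obtain ⟨C1, a1, a2, a3, a4⟩ := clean_src P T C₀ hi.le C hC ih s b
    obtain ⟨C2, b1, b2, b3, b4⟩ := clean_src P T C₀ hi.le C1 a2
      (fun j hj c => a1 _ _ (ih j hj c)) t b
    cases b with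
    | false =>
      obtain ⟨C3, c1, c2, c3, c4⟩ := clean_and b2 (b1 _ _ a4) b4
      refine ⟨C3, (a1.trans b1).trans c1, c2, by omega, (c4.mono ?_).congr (fun x => ?_)⟩
      · simp only [Gate.depth]; omega
      · simp only [Gate.eval, Bool.false_xor]
    | true =>
      obtain ⟨C3, c1, c2, c3, c4⟩ := clean_or b2 (b1 _ _ a4) b4
      refine ⟨C3, (a1.trans b1).trans c1, c2, by omega, (c4.mono ?_).congr (fun x => ?_)⟩
      · simp only [Gate.depth]; omega
      · simp only [Gate.eval, Bool.true_xor, Bool.not_and]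
  | or s t =>
    obtain ⟨C1, a1, a2, a3, a4⟩ := clean_src P T C₀ hi.le C hC ih s b
    obtain ⟨C2, b1, b2, b3, b4⟩ := clean_src P T C₀ hi.le C1 a2
      (fun j hj c => a1 _ _ (ih j hj c)) t b
    cases b with
    | false =>
      obtain ⟨C3, c1, c2, c3, c4⟩ := clean_or b2 (b1 _ _ a4) b4
      refine ⟨C3, (a1.trans b1).trans c1, c2, by omega, (c4.mono ?_).congr (fun x => ?_)⟩
      · simp only [Gate.depth]; omega
      · simp only [Gate.eval, Bool.false_xor]
    | true =>
      obtain ⟨C3, c1, c2, c3, c4⟩ := clean_and b2 (b1 _ _ a4) b4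
      refine ⟨C3, (a1.trans b1).trans c1, c2, by omega, (c4.mono ?_).congr (fun x => ?_)⟩
      · simp only [Gate.depth]; omega
      · simp only [Gate.eval, Bool.true_xor, Bool.not_or]
  | not s =>
    obtain ⟨C1, a1, a2, a3, a4⟩ := clean_src P T C₀ hi.le C hC ih s (!b)
    refine ⟨C1, a1, a2, by omega, (a4.mono ?_).congr (fun x => ?_)⟩
    · simp only [Gate.depth]; omega
    · simp only [Gate.eval]
      cases b <;> simp

theorem clean_all (P : Finset (Fin n)) (T : Fin n → Bool) (C₀ : Circuit n) (C : Circuit n)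
    (hC : Clean P C) : ∀ (k : ℕ) (hk : k ≤ C₀.size), ∃ C' : Circuit n, Ext C C' ∧ Clean P C' ∧
      C'.size ≤ C.size + 6 * k ∧ ∀ (j : ℕ) (hj : j < k) (b : Bool), Avail C'
        (fun x => xor b (C₀.val (fixv P T x) ⟨j, hj.trans_le hk⟩))
        (C₀.gateDepth ⟨j, hj.trans_le hk⟩ + 1) := by
  intro k
  induction k with
  | zero =>
    intro _
    exact ⟨C, Ext.refl C, hC, by omega, fun j hj => absurd hj (Nat.not_lt_zero _)⟩
  | succ k ih =>
    intro hk
    obtain ⟨C1, a1, a2, a3, a4⟩ := ih (by omega)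
    obtain ⟨C2, b1, b2, b3, b4⟩ := clean_gate P T C₀ k (by omega) C1 a2 a4 false
    obtain ⟨C3, c1, c2, c3, c4⟩ := clean_gate P T C₀ k (by omega) C2 b2
      (fun j hj c => b1 _ _ (a4 j hj c)) true
    refine ⟨C3, (a1.trans b1).trans c1, c2, by omega, fun j hj b => ?_⟩
    rcases Nat.lt_succ_iff_lt_or_eq.mp hj with h | h
    · exact (b1.trans c1) _ _ (a4 j h b)
    · subst h
      cases b with
      | false => exact c1 _ _ b4
      | true => exact c4

theorem clean_circuit (P : Finset (Fin n)) (T : Fin n → Bool) (C₀ : Circuit n) (C : Circuit n)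
    (hC : Clean P C) : ∃ C' : Circuit n, Ext C C' ∧ Clean P C' ∧
      C'.size ≤ C.size + (6 * C₀.size + 1) ∧
      Avail C' (fun x => C₀.eval (fixv P T x)) (C₀.depth + 1) := by
  obtain ⟨C1, a1, a2, a3, a4⟩ := clean_all P T C₀ C hC C₀.size le_rfl
  obtain ⟨C2, b1, b2, b3, b4⟩ := clean_src P T C₀ le_rfl C1 a2 a4 C₀.out false
  refine ⟨C2, a1.trans b1, b2, by omega, b4.congr (fun x => ?_)⟩
  rw [Bool.false_xor]
  rfl

theorem clean_free (P : Finset (Fin n)) (f : (Fin n → Bool) → Bool) (d B : ℕ)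
    (hbase : ∀ (T : Fin n → Bool) (C : Circuit n), Clean P C → ∃ C' : Circuit n, Ext C C' ∧
      Clean P C' ∧ C'.size ≤ C.size + B ∧ Avail C' (fun x => f (fixv P T x)) d)
    (hmono : ∀ q ∈ P, ∀ y, f (Function.update y q false) = true →
      f (Function.update y q true) = true) (Q : Finset (Fin n)) :
    Q ⊆ P → ∀ (T : Fin n → Bool) (C : Circuit n), Clean P C → ∃ C' : Circuit n, Ext C C' ∧
      Clean P C' ∧ C'.size + 2 ≤ C.size + 2 ^ Q.card * (B + 2) ∧
      Avail C' (fun x => f (fun v => if v ∈ P ∧ v ∉ Q then T v else x v)) (d + 2 * Q.card) := by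
  induction Q using Finset.induction_on with
  | empty =>
    intro _ T C hC
    obtain ⟨C', h1, h2, h3, h4⟩ := hbase T C hC
    refine ⟨C', h1, h2, ?_, (h4.mono (by simp)).congr (fun x => ?_)⟩
    · rw [Finset.card_empty, pow_zero, one_mul]
      omega
    · show _ = f (fun v => if v ∈ P then T v else x v)
      simp
  | insert q Q hq ih =>
    intro hQ T C hC
    have hqP : q ∈ P := hQ (Finset.mem_insert_self _ _)
    have hQP : Q ⊆ P := fun v hv => hQ (Finset.mem_insert_of_mem hv)
    obtain ⟨C1, a1, a2, a3, a4⟩ := ih hQP (Function.update T q false) C hC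
    obtain ⟨C2, b1, b2, b3, b4⟩ := ih hQP (Function.update T q true) C1 a2
    obtain ⟨C3, c1, c2, c3, c4⟩ := clean_and b2 (Avail.input C2 q 0) b4
    obtain ⟨C4, e1, e2, e3, e4⟩ := clean_or c2 (c1 _ _ (b1 _ _ a4)) c4
    refine ⟨C4, ((a1.trans b1).trans c1).trans e1, e2, ?_, (e4.mono ?_).congr (fun x => ?_)⟩
    · rw [Finset.card_insert_of_notMem hq, pow_succ]
      generalize 2 ^ Q.card = w at a3 b3 ⊢
      have : w * 2 * (B + 2) = w * (B + 2) + w * (B + 2) := by ring
      omega
    · rw [Finset.card_insert_of_notMem hq]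
      omega
    · set z : Fin n → Bool := fun v => if v ∈ P ∧ v ∉ insert q Q then T v else x v with hz
      have hy : ∀ b, (fun v => if v ∈ P ∧ v ∉ Q then Function.update T q b v else x v) =
          Function.update z q b := by
        intro b
        funext v
        by_cases hv : v = q
        · subst hv
          simp [hqP, hq]
        · simp [hz, hv, Finset.mem_insert]
      have hzq : z q = x q := by simp [hz]
      have hzz : Function.update z q (x q) = z := by rw [← hzq, Function.update_eq_self]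
      simp only [hy]
      have hm := hmono q hqP z
      cases hx : x q with
      | false =>
        rw [hx] at hzz
        rw [hzz]
        simp
      | true =>
        rw [hx] at hzz
        rw [hzz] at hm ⊢
        cases h5 : f (Function.update z q false) with
        | false => simp
        | true => rw [hm h5]; rfl

/-- the circuit in which the variables of `P` do not occur negatively -/
theorem protect_circuit (P : Finset (Fin n)) (f : (Fin n → Bool) → Bool) (d s : ℕ)
    (hbase : ∀ T : Fin n → Bool, ∃ C₀ : Circuit n, C₀.depth ≤ d ∧ C₀.size ≤ s ∧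
      ∀ x, C₀.eval (fixv P T x) = f (fixv P T x))
    (hmono : ∀ q ∈ P, ∀ y, f (Function.update y q false) = true →
      f (Function.update y q true) = true) :
    ∃ C' : Circuit n, (∀ x, C'.eval x = f x) ∧ C'.depth ≤ d + 1 + 2 * P.card ∧
      C'.size ≤ 2 ^ P.card * (6 * s + 3) ∧ ∀ v ∈ P, ¬ C'.NegOccurs v := by
  obtain ⟨C1, a1, a2, a3, a4⟩ := clean_free P f (d + 1) (6 * s + 1) (by
    intro T C hC
    obtain ⟨C₀, h1, h2, h3⟩ := hbase T
    obtain ⟨C', h4, h5, h6, h7⟩ := clean_circuit P T C₀ C hC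
    exact ⟨C', h4, h5, by omega, (h7.mono (by omega)).congr (fun x => (h3 x).symm)⟩)
    hmono P (fun _ h => h) (fun _ => false) (Circuit.empty n) (by
      intro i
      exact i.elim0)
  obtain ⟨C', h7, h8, h9, h10⟩ := avail_clean_circuit a2 a4
  refine ⟨C', fun x => ?_, h8, ?_, fun v hv => h10.not_neg v hv⟩
  · rw [h7]
    congr 1
    funext v
    simp
  · have h11 : (Circuit.empty n).size = 0 := rfl
    have h12 : 6 * s + 1 + 2 = 6 * s + 3 := rfl
    rw [h12] at a3
    omega

end Pool.Agent.BoolCirc
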