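import Pool.Agent.NegThr.M
import Pool.Agent.NegThr.B1

/-!
A circuit on `k` inputs can be added to another circuit over any `k` available functions.
-/

namespace Pool.Agent.BoolCirc

variable {m k : ℕ}

theorem subst_src (G : Circuit k) (E : Circuit m) (P : Fin k → (Fin m → Bool) → Bool) (e : ℕ)
    (hP : ∀ i, Avail E (P i) e) {i : ℕ} (hi : i ≤ G.size)
    (hG : ∀ (j : ℕ) (hj : j < i), Avail E
      (fun x => G.val (fun v => P v x) ⟨j, hj.trans_le hi⟩)
      (e + G.gateDepth ⟨j, hj.trans_le hi⟩)) (s : Src k i) :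
    Avail E (fun x => s.eval (fun v => P v x)
      (fun j => G.val (fun v => P v x) ⟨j.1, j.2.trans_le hi⟩))
      (e + s.depth (fun j => G.gateDepth ⟨j.1, j.2.trans_le hi⟩)) := by
  cases s with
  | input v => exact (hP v).mono (Nat.le_add_right _ _)
  | const b => exact Avail.const E b _
  | gate j => exact hG j.1 j.2

theorem extN_subst_aux (G : Circuit k) (E : Circuit m) (P : Fin k → (Fin m → Bool) → Bool)
    (e : ℕ) (hP : ∀ i, Avail E (P i) e) : ∀ (i : ℕ) (hi : i ≤ G.size), ∃ E' : Circuit m,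
      ExtN i (G.notsBelow i) E E' ∧ ∀ (j : ℕ) (hj : j < i), Avail E'
        (fun x => G.val (fun v => P v x) ⟨j, hj.trans_le hi⟩)
        (e + G.gateDepth ⟨j, hj.trans_le hi⟩) := by
  intro i
  induction i with
  | zero =>
    intro _
    exact ⟨E, (ExtN.refl E).weaken le_rfl (Nat.zero_le _),
      fun j hj => absurd hj (Nat.not_lt_zero _)⟩
  | succ i ih =>
    intro hi
    obtain ⟨E1, h1, h2⟩ := ih (by omega)
    have hlt : i < G.size := hi
    have hsrc := subst_src G E1 P e (fun v => h1.1 _ _ (hP v)) (Nat.le_of_lt hlt)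
      (fun j hj => h2 j hj)
    have hval : ∀ x, G.val x ⟨i, hlt⟩ = (G.gate ⟨i, hlt⟩).eval x
        (fun j => G.val x ⟨j.1, j.2.trans hlt⟩) := fun x => by rw [Circuit.val]
    have hdep : G.gateDepth ⟨i, hlt⟩ = (G.gate ⟨i, hlt⟩).depth
        (fun j => G.gateDepth ⟨j.1, j.2.trans hlt⟩) := by rw [Circuit.gateDepth]
    have hnew : ∃ E2 : Circuit m, ExtN 1 (if (G.gate ⟨i, hlt⟩).isNot = true then 1 else 0) E1 E2 ∧
        Avail E2 (fun x => G.val (fun v => P v x) ⟨i, hlt⟩) (e + G.gateDepth ⟨i, hlt⟩) := by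
      rw [hdep]
      simp only [hval]
      generalize G.gate ⟨i, hlt⟩ = g
      cases g with
      | and s t =>
        obtain ⟨E2, h3, h4⟩ := extN_and (hsrc s) (hsrc t)
        refine ⟨E2, h3.weaken le_rfl (Nat.zero_le _), (h4.mono ?_).congr (fun x => ?_)⟩
        · simp only [Gate.depth]; omega
        · simp only [Gate.eval]
      | or s t =>
        obtain ⟨E2, h3, h4⟩ := extN_or (hsrc s) (hsrc t)
        refine ⟨E2, h3.weaken le_rfl (Nat.zero_le _), (h4.mono ?_).congr (fun x => ?_)⟩
        · simp only [Gate.depth]; omega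
        · simp only [Gate.eval]
      | not s =>
        obtain ⟨E2, h3, h4⟩ := extN_not (hsrc s)
        refine ⟨E2, h3.weaken le_rfl (by simp [Gate.isNot]), (h4.mono ?_).congr (fun x => ?_)⟩
        · simp only [Gate.depth]; omega
        · simp only [Gate.eval]
    obtain ⟨E2, h3, h4⟩ := hnew
    refine ⟨E2, (h1.trans h3).weaken le_rfl ?_, fun j hj => ?_⟩
    · by_cases hg : (G.gate ⟨i, hlt⟩).isNot = true
      · rw [G.notsBelow_succ_not hlt hg, if_pos hg]
      · rw [G.notsBelow_succ_of_not_isNot hlt (by simpa using hg), if_neg hg]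
        omega
    · rcases Nat.lt_succ_iff_lt_or_eq.mp hj with h | h
      · exact h3.1 _ _ (h2 j h)
      · subst h
        exact h4

/-- a circuit is added over available functions -/
theorem extN_subst (G : Circuit k) (E : Circuit m) (P : Fin k → (Fin m → Bool) → Bool)
    (e : ℕ) (hP : ∀ i, Avail E (P i) e) : ∃ E' : Circuit m, ExtN G.size G.nots E E' ∧
      Avail E' (fun x => G.eval (fun v => P v x)) (e + G.depth) := by
  obtain ⟨E1, h1, h2⟩ := extN_subst_aux G E P e hP G.size le_rfl
  refine ⟨E1, by rw [← G.notsBelow_size]; exact h1, ?_⟩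
  exact subst_src G E1 P e (fun v => h1.1 _ _ (hP v)) le_rfl (fun j hj => h2 j hj) G.out

end Pool.Agent.BoolCirc
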