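import Pool.Agent.NegThr.RM7

/-!
Monotone multiplexers in double rail logic and the lifted pyramid function over available
functions.
-/

namespace Pool.Agent.BoolCirc

/-- multiplexer with `2 ^ L` data bits `x`, address bits `s` and negated address bits `s'` -/
def mux : ℕ → (ℕ → Bool) → (ℕ → Bool) → (ℕ → Bool) → Bool
  | 0, _, _, x => x 0
  | L + 1, s, s', x => (s' L && mux L s s' x) || (s L && mux L s s' (fun i => x (i + 2 ^ L)))

theorem mux_eq (a : ℕ) (s s' : ℕ → Bool) : ∀ (L : ℕ) (x : ℕ → Bool),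
    (∀ b < L, s b = a.testBit b ∧ s' b = ! a.testBit b) → mux L s s' x = x (a % 2 ^ L) := by
  intro L
  induction L with
  | zero =>
    intro x _
    simp [mux, Nat.mod_one]
  | succ L ih =>
    intro x h
    have h1 := fun x' => ih x' (fun b hb => h b (by omega))
    obtain ⟨h2, h3⟩ := h L (by omega)
    have h4 : a % 2 ^ (L + 1) = a % 2 ^ L + 2 ^ L * (a / 2 ^ L % 2) := Nat.mod_pow_succ
    rw [Nat.testBit_eq_decide_div_mod_eq] at h2 h3
    rw [mux, h1, h1, h2, h3, h4]
    rcases Nat.mod_two_eq_zero_or_one (a / 2 ^ L) with hb | hb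
    · simp [hb]
    · simp [hb]

theorem avE_mux {n : ℕ} (s s' : ℕ → (Fin n → Bool) → Bool) : ∀ (L : ℕ)
    (x : ℕ → (Fin n → Bool) → Bool) (C : Circuit n), (∀ b, AvE C (s b)) → (∀ b, AvE C (s' b)) →
    (∀ i, AvE C (x i)) → ∃ C' : Circuit n, ExtN (3 * (2 ^ L - 1)) 0 C C' ∧
      AvE C' (fun X => mux L (fun b => s b X) (fun b => s' b X) (fun i => x i X)) := by
  intro L
  induction L with
  | zero =>
    intro x C _ _ hx
    exact ⟨C, (ExtN.refl C).weaken (by omega) (by omega), hx 0⟩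
  | succ L ih =>
    intro x C hs hs' hx
    obtain ⟨C1, h1, h2⟩ := ih x C hs hs' hx
    obtain ⟨C2, h3, h4⟩ := ih (fun i => x (i + 2 ^ L)) C1 (fun b => (hs b).ext h1.1)
      (fun b => (hs' b).ext h1.1) (fun i => (hx _).ext h1.1)
    obtain ⟨C3, h5, h6⟩ := avE_and (((hs' L).ext h1.1).ext h3.1) (h2.ext h3.1)
    obtain ⟨C4, h7, h8⟩ := avE_and ((((hs L).ext h1.1).ext h3.1).ext h5.1) (h4.ext h5.1)
    obtain ⟨C5, h9, h10⟩ := avE_or (h6.ext h7.1) h8
    refine ⟨C5, ((((h1.trans h3).trans h5).trans h7).trans h9).weaken ?_ (by omega), ?_⟩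
    · have : 1 ≤ 2 ^ L := Nat.one_le_two_pow
      rw [pow_succ]
      omega
    · exact h10

theorem build_der_fun {n : ℕ} (H m : ℕ) (g : RVar H m → (Fin n → Bool) → Bool) (C : Circuit n)
    (hg : ∀ e, AvE C (g e)) : ∀ k : ℕ,
    ∃ C' : Circuit n, ExtN ((k + 1) * (((H + 1) * m) * (3 * m ^ 2))) 0 C C' ∧
      ∀ (i : Fin (H + 1)) (a : Fin m), AvE C' (fun X => der (fun e => g e X) k i a) := by
  have hcard : Fintype.card (Fin (H + 1) × Fin m) = (H + 1) * m := by simp
  have hcard2 : Fintype.card (Fin m × Fin m) = m ^ 2 := by simp [sq]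
  intro k
  induction k with
  | zero =>
    obtain ⟨C1, h1, h2⟩ := avE_family (ι := Fin (H + 1) × Fin m)
      (fun p X => der (fun e => g e X) 0 p.1 p.2) (3 * m ^ 2) C (by
        intro p C' hC'
        obtain ⟨C'', h3, h4⟩ := avE_or3 (ι := Fin m × Fin m)
          (fun q X => g (Sum.inl ((Fin.last H, p.1), p.2, q.1, q.2)) X)
          (fun _ _ => true) (fun _ _ => true) C'
          (fun q => (hg _).ext hC') (fun _ => ⟨0, Avail.const C' true 0⟩)
          (fun _ => ⟨0, Avail.const C' true 0⟩)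
        rw [hcard2] at h3
        refine ⟨C'', h3, h4.congr ?_⟩
        intro X
        simp only [der, Prod.exists, and_true])
    rw [hcard] at h1
    exact ⟨C1, h1.weaken (by ring_nf; exact le_rfl) le_rfl, fun i a => h2 (i, a)⟩
  | succ k ih =>
    obtain ⟨C0, g1, g2⟩ := ih
    obtain ⟨C1, h1, h2⟩ := avE_family (ι := Fin (H + 1) × Fin m)
      (fun p X => der (fun e => g e X) (k + 1) p.1 p.2) (3 * m ^ 2) C0 (by
        intro p C' hC'
        obtain ⟨C'', h3, h4⟩ := avE_or3 (ι := Fin m × Fin m)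
          (fun q X => g (Sum.inl ((Fin.ofNat (H + 1) (H - (k + 1)), p.1), p.2, q.1, q.2)) X)
          (fun q X => der (fun e => g e X) k p.1 q.1)
          (fun q X => der (fun e => g e X) k (p.1 + 1) q.2) C'
          (fun q => ((hg _).ext g1.1).ext hC') (fun q => (g2 _ _).ext hC')
          (fun q => (g2 _ _).ext hC')
        rw [hcard2] at h3
        refine ⟨C'', h3, h4.congr ?_⟩
        intro X
        simp only [der, Prod.exists])
    rw [hcard] at h1
    exact ⟨C1, (g1.trans h1).weaken (by ring_nf; exact le_rfl) le_rfl, fun i a => h2 (i, a)⟩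

theorem gad_circuit_fun {n : ℕ} (H m : ℕ) (g : RVar H m → (Fin n → Bool) → Bool) (C : Circuit n)
    (hg : ∀ e, AvE C (g e)) :
    ∃ C' : Circuit n, ExtN (4 * ((H + 1) ^ 2 * m ^ 3 + m)) 0 C C' ∧
      AvE C' (fun X => gad H m (fun e => g e X)) := by
  obtain ⟨C1, h1, h2⟩ := build_der_fun H m g C hg H
  obtain ⟨C2, h3, h4⟩ := avE_or3 (ι := Fin m)
    (fun a X => g (Sum.inr a) X) (fun a X => der (fun e => g e X) H 0 a)
    (fun _ _ => true) C1
    (fun q => (hg _).ext h1.1) (fun q => h2 _ _) (fun _ => ⟨0, Avail.const C1 true 0⟩)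
  rw [Fintype.card_fin] at h3
  refine ⟨C2, (h1.trans h3).weaken ?_ (by omega), h4.congr ?_⟩
  · have e1 : (H + 1) * ((H + 1) * m * (3 * m ^ 2)) = 3 * ((H + 1) ^ 2 * m ^ 3) := by ring
    rw [e1]
    omega
  · intro X
    simp only [gad, and_true]

end Pool.Agent.BoolCirc
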