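import Pool.Agent.NegVar.Path
import Pool.Agent.NegVar.Mux
import Pool.Agent.NegThr.RM8a

/-!
A monotone circuit such that every shallow equivalent circuit negates almost all inputs: every
variable of the lifted pyramid function is selected among `2 ^ L` data bits.
-/

namespace Pool.Agent.BoolCirc

/-- the inputs: `2 ^ L` data bits and, for every variable of the lifted pyramid function, an
address of `L` bits in double rail -/
abbrev SelVar (H p L : ℕ) : Type := Fin (2 ^ L) ⊕ (RVar H p × Fin L × Bool)

/-- the lifted pyramid function of the selected data bits -/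
def selFun (H p L : ℕ) (X : SelVar H p L → Bool) : Bool :=
  gad H p (fun e => mux L
    (fun b => if h : b < L then X (Sum.inr (e, ⟨b, h⟩, true)) else false)
    (fun b => if h : b < L then X (Sum.inr (e, ⟨b, h⟩, false)) else false)
    (fun i => if h : i < 2 ^ L then X (Sum.inl ⟨i, h⟩) else false))

/-- numbering of the inputs -/
noncomputable def selEquiv (H p L : ℕ) : SelVar H p L ≃ Fin (Fintype.card (SelVar H p L)) :=
  Fintype.equivFin _

theorem card_rvar (H p : ℕ) : Fintype.card (RVar H p) = (H + 1) ^ 2 * p ^ 3 + p := by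
  simp only [RVar, PNode, Fintype.card_sum, Fintype.card_prod, Fintype.card_fin]
  ring

theorem card_selVar (H p L : ℕ) :
    Fintype.card (SelVar H p L) = 2 ^ L + Fintype.card (RVar H p) * (L * 2) := by
  simp only [SelVar, Fintype.card_sum, Fintype.card_prod, Fintype.card_fin, Fintype.card_bool]

theorem avE_dite {n : ℕ} (C : Circuit n) {q : Prop} [Decidable q] (v : q → Fin n) :
    AvE C (fun X => if h : q then X (v h) else false) := by
  by_cases h : q
  · simp only [h, dif_pos]
    exact ⟨0, Avail.input C _ 0⟩
  · simp only [h, dif_neg, not_false_eq_true]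
    exact ⟨0, Avail.const C false 0⟩

theorem sel_circuit (H p L : ℕ) : ∃ M : Circuit (Fintype.card (SelVar H p L)),
    (∀ X, M.eval X = selFun H p L (fun v => X (selEquiv H p L v))) ∧ M.nots = 0 ∧
      M.size ≤ Fintype.card (RVar H p) * (3 * 2 ^ L + 1) := by
  obtain ⟨C1, h1, h2⟩ := avE_family (ι := RVar H p)
    (fun e X => mux L
      (fun b => if h : b < L then X (selEquiv H p L (Sum.inr (e, ⟨b, h⟩, true))) else false)
      (fun b => if h : b < L then X (selEquiv H p L (Sum.inr (e, ⟨b, h⟩, false))) else false)
      (fun i => if h : i < 2 ^ L then X (selEquiv H p L (Sum.inl ⟨i, h⟩)) else false))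
    (3 * (2 ^ L - 1)) (Circuit.empty _) (by
      intro e C' _
      exact avE_mux
        (fun b X => if h : b < L then X (selEquiv H p L (Sum.inr (e, ⟨b, h⟩, true))) else false)
        (fun b X => if h : b < L then X (selEquiv H p L (Sum.inr (e, ⟨b, h⟩, false))) else false)
        L
        (fun i X => if h : i < 2 ^ L then X (selEquiv H p L (Sum.inl ⟨i, h⟩)) else false) C'
        (fun b => avE_dite C' (fun h => selEquiv H p L (Sum.inr (e, ⟨b, h⟩, true))))
        (fun b => avE_dite C' (fun h => selEquiv H p L (Sum.inr (e, ⟨b, h⟩, false))))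
        (fun i => avE_dite C' (fun h => selEquiv H p L (Sum.inl ⟨i, h⟩))))
  obtain ⟨C2, h3, d, h4⟩ := gad_circuit_fun H p _ C1 h2
  obtain ⟨M, f1, f2, f3, f4⟩ := h4.exists_circuit_nots
  refine ⟨M, ?_, ?_, ?_⟩
  · intro X
    rw [f1]
    rfl
  · have h5 := (h1.trans h3).2.2
    have h6 : (Circuit.empty (Fintype.card (SelVar H p L))).nots = 0 := by
      unfold Circuit.nots
      rw [Finset.card_eq_zero]
      ext i
      exact i.elim0
    omega
  · have h5 := (h1.trans h3).2.1
    have h6 : (Circuit.empty (Fintype.card (SelVar H p L))).size = 0 := rfl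
    have h7 : 1 ≤ 2 ^ L := Nat.one_le_two_pow
    rw [f3]
    rw [← card_rvar] at h5
    have h8 : Fintype.card (RVar H p) * (3 * (2 ^ L - 1)) + 4 * Fintype.card (RVar H p) =
        Fintype.card (RVar H p) * (3 * 2 ^ L + 1) := by
      rw [mul_comm 4, ← Nat.mul_add]
      congr 1
      omega
    omega

open Classical in
/-- an equivalent circuit in which enough data bits do not occur negatively is deep -/
theorem sel_lower (H p L : ℕ)
    (hlow : ∀ F : MF (RVar H p), (∀ w, F.eval w = gad H p w) → H ≤ F.depth)
    (C : Circuit (Fintype.card (SelVar H p L)))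
    (E : SelVar H p L ≃ Fin (Fintype.card (SelVar H p L)))
    (hC : ∀ X, C.eval X = selFun H p L (fun v => X (E v)))
    (emb : RVar H p → Fin (2 ^ L)) (hemb : Function.Injective emb)
    (hneg : ∀ e, ¬ C.NegOccurs (E (Sum.inl (emb e)))) : H ≤ C.depth := by
  set P : Finset (Fin (Fintype.card (SelVar H p L))) :=
    Finset.univ.filter (fun v => ∃ e, v = E (Sum.inl (emb e))) with hP
  set ρ : Fin (Fintype.card (SelVar H p L)) → Bool := fun v =>
    match E.symm v with
    | Sum.inl _ => false
    | Sum.inr (e, b, true) => (emb e).1.testBit b.1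
    | Sum.inr (e, b, false) => ! (emb e).1.testBit b.1 with hρ
  obtain ⟨F, hF1, hF2⟩ := exists_mf C P ρ (by
    intro v hv
    obtain ⟨e, rfl⟩ := (Finset.mem_filter.mp hv).2
    exact hneg e)
  set g : Fin (Fintype.card (SelVar H p L)) → MF (RVar H p) := fun v =>
    if h : ∃ e, v = E (Sum.inl (emb e)) then .inp h.choose else .cst false with hg
  have hge : ∀ (e : RVar H p) (w : RVar H p → Bool),
      (g (E (Sum.inl (emb e)))).eval w = w e := by
    intro e w
    have h : ∃ e', E (Sum.inl (emb e)) = E (Sum.inl (emb e')) := ⟨e, rfl⟩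
    have h1 : h.choose = e := by
      have h2 := h.choose_spec
      exact (hemb (Sum.inl.inj (E.injective h2))).symm
    simp only [hg]
    rw [dif_pos h]
    simp only [MF.eval]
    rw [h1]
  have hgd : ∀ v, (g v).depth ≤ 0 := by
    intro v
    simp only [hg]
    split_ifs with h
    · exact le_rfl
    · exact le_rfl
  have key : ∀ w, (F.bind g).eval w = gad H p w := by
    intro w
    rw [MF.eval_bind, hF2, hC]
    unfold selFun
    congr 1
    funext e
    rw [mux_eq (emb e).1]
    · rw [Nat.mod_eq_of_lt (emb e).2, dif_pos (emb e).2]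
      have hmem : E (Sum.inl (emb e)) ∈ P := by
        rw [hP, Finset.mem_filter]
        exact ⟨Finset.mem_univ _, e, rfl⟩
      show mix P ρ _ (E (Sum.inl ⟨(emb e).1, (emb e).2⟩)) = w e
      rw [Fin.eta]
      unfold mix
      rw [if_pos hmem]
      exact hge e w
    · intro b hb
      have hnot : ∀ c, E (Sum.inr (e, ⟨b, hb⟩, c)) ∉ P := by
        intro c hc
        obtain ⟨e', he'⟩ := (Finset.mem_filter.mp hc).2
        exact absurd (E.injective he') (by simp)
      constructor
      · rw [dif_pos hb]
        show mix P ρ _ (E (Sum.inr (e, ⟨b, hb⟩, true))) = _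
        unfold mix
        rw [if_neg (hnot true)]
        simp only [hρ, Equiv.symm_apply_apply]
      · rw [dif_pos hb]
        show mix P ρ _ (E (Sum.inr (e, ⟨b, hb⟩, false))) = _
        unfold mix
        rw [if_neg (hnot false)]
        simp only [hρ, Equiv.symm_apply_apply]
  have h1 := hlow (F.bind g) key
  have h2 := MF.depth_bind_le g 0 hgd F
  omega

/-- circuits without NOT gates have no negative occurrences -/
theorem not_negOccurs_of_nots {n : ℕ} (C : Circuit n) (h : C.nots = 0) (v : Fin n) :
    ¬ C.NegOccurs v := by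
  have h1 : ∀ i : Fin C.size, (C.gate i).isNot = false := by
    intro i
    by_contra h2
    rw [Bool.not_eq_false] at h2
    unfold Circuit.nots at h
    rw [Finset.card_eq_zero] at h
    have : i ∈ (∅ : Finset (Fin C.size)) := by
      rw [← h, Finset.mem_filter]
      exact ⟨Finset.mem_univ _, h2⟩
    exact absurd this (Finset.notMem_empty _)
  have h2 : ∀ (b : Bool) (s : Src n C.size), C.Reaches b s → b = false := by
    intro b s hs
    induction hs with
    | out => rfl
    | step _ _ ih => rw [ih, h1]; rfl
  intro h3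
  exact Bool.noConfusion (h2 _ _ h3)

end Pool.Agent.BoolCirc
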