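import Pool.Agent.NegVar.Hard

/-!
The lower bound: a monotone circuit all of whose shallow equivalents negate almost all inputs.
-/

namespace Pool.Agent.BoolCirc

theorem card_rvar_le (D : ℕ) : Fintype.card (RVar (D + 1) ((D + 2) ^ 40)) ≤ (D + 2) ^ 123 := by
  rw [card_rvar]
  have h1 : (D + 1 + 1) ^ 2 * ((D + 2) ^ 40) ^ 3 = (D + 2) ^ 122 := by
    rw [← pow_mul, ← pow_add]
  have h2 : (D + 2) ^ 40 ≤ (D + 2) ^ 122 := Nat.pow_le_pow_right (by omega) (by norm_num)
  have h3 : (D + 2) ^ 123 = (D + 2) ^ 122 * (D + 2) := pow_succ _ _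
  rw [h1, h3]
  generalize (D + 2) ^ 122 = x at h2 ⊢
  generalize (D + 2) ^ 40 = y at h2 ⊢
  have h4 : x * 2 ≤ x * (D + 2) := Nat.mul_le_mul_left _ (by omega)
  omega

theorem numeric_K (D : ℕ) (hD : 1 ≤ D) : 16 * (D + 2) ^ 123 ≤ (D + 1) ^ 250 ∧
    (D + 2) ^ 123 * (2 * D + 1) ≤ (D + 1) ^ 250 := by
  have h1 : D + 2 ≤ (D + 1) ^ 2 := by nlinarith
  have h2 : (D + 2) ^ 123 ≤ (D + 1) ^ 246 := by
    calc (D + 2) ^ 123 ≤ ((D + 1) ^ 2) ^ 123 := Nat.pow_le_pow_left h1 _
      _ = (D + 1) ^ 246 := by rw [← pow_mul]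
  have h3 : 16 ≤ (D + 1) ^ 4 := by
    calc 16 = 2 ^ 4 := by norm_num
      _ ≤ (D + 1) ^ 4 := Nat.pow_le_pow_left (by omega) _
  have h4 : 2 * D + 1 ≤ (D + 1) ^ 4 := by
    have : 2 * D + 1 ≤ (D + 1) ^ 2 := by nlinarith
    exact this.trans (Nat.pow_le_pow_right (by omega) (by norm_num))
  have h5 : (D + 1) ^ 250 = (D + 1) ^ 4 * (D + 1) ^ 246 := by rw [← pow_add]
  rw [h5]
  exact ⟨Nat.mul_le_mul h3 h2, by rw [mul_comm]; exact Nat.mul_le_mul h4 h2⟩

open Classical in
theorem neg_inputs_aux (S D B K p : ℕ) (hD : 1 ≤ D) (hSD : S ≤ 2 ^ D) (hB0 : 0 < B)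
    (hK1 : 16 * B ≤ K) (hK2 : B * (2 * D + 1) ≤ K)
    (hr : Fintype.card (RVar (D + 1) p) ≤ B)
    (hlow : ∀ F : MF (RVar (D + 1) p), (∀ w, F.eval w = gad (D + 1) p w) → D + 1 ≤ F.depth) :
    ∃ (n : ℕ) (M : Circuit n), S ≤ n * K ∧ M.size ≤ S ∧ M.nots = 0 ∧
      ∀ C : Circuit n, (∀ x, C.eval x = M.eval x) → C.depth ≤ D →
        (Finset.univ.filter (fun v => ¬ C.NegOccurs v)).card ≤ K := by
  rcases Nat.lt_or_ge S (16 * B) with hlt | hge
  · refine ⟨1, Circuit.empty 1, by omega, Nat.zero_le _, ?_, ?_⟩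
    · unfold Circuit.nots
      rw [Finset.card_eq_zero]
      ext i
      exact i.elim0
    · intro C _ _
      refine (Finset.card_filter_le _ _).trans ?_
      rw [Finset.card_univ, Fintype.card_fin]
      omega
  · set L := Nat.log 2 (S / (4 * B)) with hL
    have h40 : 0 < 4 * B := by omega
    have hdiv : S / (4 * B) ≠ 0 := by
      have : 4 ≤ S / (4 * B) := by
        rw [Nat.le_div_iff_mul_le h40]
        omega
      omega
    have hL1 : 4 * B * 2 ^ L ≤ S := by
      have := Nat.pow_log_le_self 2 hdiv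
      rw [← hL, Nat.le_div_iff_mul_le h40] at this
      rw [mul_comm]
      exact this
    have hL2 : S < 4 * B * 2 ^ (L + 1) := by
      have := Nat.lt_pow_succ_log_self (b := 2) (by norm_num) (S / (4 * B))
      rw [← hL, Nat.div_lt_iff_lt_mul h40] at this
      rw [mul_comm (4 * B)]
      exact this
    have hLD : L ≤ D := by
      have h1 : 1 * 2 ^ L ≤ 4 * B * 2 ^ L := Nat.mul_le_mul_right _ h40
      rw [one_mul] at h1
      exact (Nat.pow_le_pow_iff_right (by norm_num)).mp ((h1.trans hL1).trans hSD)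
    obtain ⟨M, m1, m2, m3⟩ := sel_circuit (D + 1) p L
    have hcard := card_selVar (D + 1) p L
    set r := Fintype.card (RVar (D + 1) p) with hrdef
    have h2L : 1 ≤ 2 ^ L := Nat.one_le_two_pow
    refine ⟨_, M, ?_, ?_, m2, ?_⟩
    · rw [hcard]
      calc S ≤ 8 * B * 2 ^ L := by
            rw [pow_succ] at hL2
            have : 4 * B * (2 ^ L * 2) = 8 * B * 2 ^ L := by ring
            omega
        _ ≤ K * 2 ^ L := Nat.mul_le_mul_right _ (by omega)
        _ ≤ K * (2 ^ L + r * (L * 2)) := Nat.mul_le_mul_left _ (by omega)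
        _ = _ := mul_comm _ _
    · calc M.size ≤ r * (3 * 2 ^ L + 1) := m3
        _ ≤ B * (4 * 2 ^ L) := Nat.mul_le_mul hr (by omega)
        _ = 4 * B * 2 ^ L := by ring
        _ ≤ S := hL1
    · intro C hC hdep
      set E := selEquiv (D + 1) p L with hE
      set A : Finset (Fin (2 ^ L)) :=
        Finset.univ.filter (fun a => ¬ C.NegOccurs (E (Sum.inl a))) with hA
      have hAr : A.card < r := by
        by_contra hcon
        push Not at hcon
        have h1 : Fintype.card (RVar (D + 1) p) ≤ Fintype.card A := by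
          rw [Fintype.card_coe]
          exact hcon
        obtain ⟨f⟩ := Function.Embedding.nonempty_of_card_le h1
        have h2 := sel_lower (D + 1) p L hlow C E
          (fun X => (hC X).trans (m1 X)) (fun e => (f e).1)
          (fun e e' h => f.injective (Subtype.ext h))
          (fun e => (Finset.mem_filter.mp (f e).2).2)
        omega
      have hsub : Finset.univ.filter (fun v => ¬ C.NegOccurs v) ⊆
          A.image (fun a => E (Sum.inl a)) ∪
            (Finset.univ : Finset (RVar (D + 1) p × Fin L × Bool)).image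
              (fun a => E (Sum.inr a)) := by
        intro v hv
        have hv' := (Finset.mem_filter.mp hv).2
        rw [Finset.mem_union, Finset.mem_image, Finset.mem_image]
        rcases hs : E.symm v with a | a
        · left
          have h3 : E (Sum.inl a) = v := by rw [← hs, Equiv.apply_symm_apply]
          refine ⟨a, ?_, h3⟩
          rw [hA, Finset.mem_filter]
          exact ⟨Finset.mem_univ _, by rw [h3]; exact hv'⟩
        · right
          exact ⟨a, Finset.mem_univ _, by rw [← hs, Equiv.apply_symm_apply]⟩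
      calc (Finset.univ.filter (fun v => ¬ C.NegOccurs v)).card
          ≤ _ := Finset.card_le_card hsub
        _ ≤ _ := Finset.card_union_le _ _
        _ ≤ A.card + (Finset.univ : Finset (RVar (D + 1) p × Fin L × Bool)).card :=
            Nat.add_le_add Finset.card_image_le Finset.card_image_le
        _ = A.card + r * (L * 2) := by
            rw [Finset.card_univ, Fintype.card_prod, Fintype.card_prod, Fintype.card_fin,
              Fintype.card_bool]
        _ ≤ r + r * (L * 2) := Nat.add_le_add_right hAr.le _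
        _ = r * (2 * L + 1) := by ring
        _ ≤ B * (2 * D + 1) := Nat.mul_le_mul hr (by omega)
        _ ≤ K := hK2

open Classical in
theorem neg_inputs (S D : ℕ) (hS : 2 ≤ S) (hSD : S ≤ 2 ^ D) :
    ∃ (n : ℕ) (M : Circuit n), S ≤ n * (D + 1) ^ 250 ∧ M.size ≤ S ∧ M.nots = 0 ∧
      ∀ C : Circuit n, (∀ x, C.eval x = M.eval x) → C.depth ≤ D →
        (Finset.univ.filter (fun v => ¬ C.NegOccurs v)).card ≤ (D + 1) ^ 250 := by
  have hD : 1 ≤ D := by
    rcases Nat.eq_zero_or_pos D with h | h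
    · subst h
      rw [pow_zero] at hSD
      omega
    · exact h
  obtain ⟨hK1, hK2⟩ := numeric_K D hD
  exact neg_inputs_aux S D ((D + 2) ^ 123) ((D + 1) ^ 250) ((D + 2) ^ 40) hD hSD
    (Nat.pow_pos (by omega)) hK1 hK2 (card_rvar_le D)
    (fun F hF => gad_lower (D + 1) (Nat.succ_le_succ (Nat.zero_le _)) F hF)

end Pool.Agent.BoolCirc
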