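import Pool.Agent.NegThr.B1

/-!
Variables occurring negatively in a circuit, and pushing the negations of a circuit down to the
inputs when some variables do not occur negatively.
-/

namespace Pool.Agent.BoolCirc

/-- the same node, seen from a later gate -/
def Src.lift {n i k : ℕ} (h : i ≤ k) : Src n i → Src n k
  | .input v => .input v
  | .const b => .const b
  | .gate j => .gate ⟨j.1, lt_of_lt_of_le j.2 h⟩

/-- `C.Reaches b s`: on some directed path from the node `s` to the output of `C` the number of
NOT gates after `s` is odd (`b = true`), respectively even (`b = false`) -/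
inductive Circuit.Reaches {n : ℕ} (C : Circuit n) : Bool → Src n C.size → Prop
  | out : C.Reaches false C.out
  | step {b : Bool} {j : Fin C.size} {s : Src n j.1} (h : C.Reaches b (Src.gate j))
      (hs : s ∈ (C.gate j).operands) : C.Reaches (xor b (C.gate j).isNot) (s.lift j.2.le)

/-- the variable `v` occurs negatively in `C`: some directed path from the input `v` to the output
passes through an odd number of NOT gates -/
def Circuit.NegOccurs {n : ℕ} (C : Circuit n) (v : Fin n) : Prop := C.Reaches true (Src.input v)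

/-- the input which is `x` on `P` and `ρ` elsewhere -/
def mix {n : ℕ} (P : Finset (Fin n)) (ρ x : Fin n → Bool) : Fin n → Bool :=
  fun v => if v ∈ P then x v else ρ v

section

variable {n : ℕ} (C : Circuit n) (P : Finset (Fin n)) (ρ : Fin n → Bool)

theorem mf_src (hP : ∀ v ∈ P, ¬ C.NegOccurs v) {i : ℕ} (hi : i ≤ C.size)
    (ih : ∀ (j : ℕ) (hj : j < i) (b : Bool), C.Reaches b (Src.gate ⟨j, hj.trans_le hi⟩) →
      ∃ F : MF (Fin n), F.depth ≤ C.gateDepth ⟨j, hj.trans_le hi⟩ ∧
        ∀ x, F.eval x = xor b (C.val (mix P ρ x) ⟨j, hj.trans_le hi⟩))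
    (s : Src n i) (b : Bool) (hs : C.Reaches b (s.lift hi)) :
    ∃ F : MF (Fin n), F.depth ≤ s.depth (fun j => C.gateDepth ⟨j.1, j.2.trans_le hi⟩) ∧
      ∀ x, F.eval x = xor b (s.eval (mix P ρ x) (fun j => C.val (mix P ρ x) ⟨j.1, j.2.trans_le hi⟩)) := by
  cases s with
  | input v =>
    by_cases hv : v ∈ P
    · have hb : b = false := by
        cases b with
        | false => rfl
        | true => exact absurd hs (hP v hv)
      subst hb
      refine ⟨.inp v, le_rfl, fun x => ?_⟩
      simp [MF.eval, Src.eval, mix, hv]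
    · refine ⟨.cst (xor b (ρ v)), le_rfl, fun x => ?_⟩
      simp [MF.eval, Src.eval, mix, hv]
  | const c =>
    refine ⟨.cst (xor b c), le_rfl, fun x => ?_⟩
    simp [MF.eval, Src.eval]
  | gate j =>
    obtain ⟨F, h1, h2⟩ := ih j.1 j.2 b hs
    exact ⟨F, h1, h2⟩

theorem mf_gate (hP : ∀ v ∈ P, ¬ C.NegOccurs v) : ∀ (i : ℕ) (hi : i < C.size) (b : Bool),
    C.Reaches b (Src.gate ⟨i, hi⟩) →
      ∃ F : MF (Fin n), F.depth ≤ C.gateDepth ⟨i, hi⟩ ∧
        ∀ x, F.eval x = xor b (C.val (mix P ρ x) ⟨i, hi⟩) := by
  intro i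
  induction i using Nat.strong_induction_on with
  | _ i ih =>
    intro hi b hb
    have hsrc := fun (s : Src n i) (c : Bool) (hs : C.Reaches c (s.lift hi.le)) =>
      mf_src C P ρ hP hi.le (fun j hj c hc => ih j hj (hj.trans hi) c hc) s c hs
    have hstep : ∀ s : Src n i, s ∈ (C.gate ⟨i, hi⟩).operands →
        C.Reaches (xor b (C.gate ⟨i, hi⟩).isNot) (s.lift hi.le) := fun s hs => hb.step hs
    have hval : ∀ x, C.val x ⟨i, hi⟩ = (C.gate ⟨i, hi⟩).eval x
        (fun j => C.val x ⟨j.1, j.2.trans hi⟩) := fun x => by rw [Circuit.val]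
    have hdep : C.gateDepth ⟨i, hi⟩ = (C.gate ⟨i, hi⟩).depth
        (fun j => C.gateDepth ⟨j.1, j.2.trans hi⟩) := by rw [Circuit.gateDepth]
    rw [hdep]
    simp only [hval]
    generalize C.gate ⟨i, hi⟩ = g at hstep
    cases g with
    | and s t =>
      obtain ⟨F, h1, h2⟩ := hsrc s b (by simpa [Gate.isNot] using hstep s (by simp [Gate.operands]))
      obtain ⟨G, h3, h4⟩ := hsrc t b (by simpa [Gate.isNot] using hstep t (by simp [Gate.operands]))
      cases b with
      | false =>
        refine ⟨.and F G, ?_, fun x => ?_⟩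
        · simp only [MF.depth, Gate.depth]
          exact Nat.succ_le_succ (max_le_max h1 h3)
        · simp only [MF.eval, Gate.eval, h2, h4, Bool.false_xor]
      | true =>
        refine ⟨.or F G, ?_, fun x => ?_⟩
        · simp only [MF.depth, Gate.depth]
          exact Nat.succ_le_succ (max_le_max h1 h3)
        · simp only [MF.eval, Gate.eval, h2, h4, Bool.true_xor, Bool.not_and]
    | or s t =>
      obtain ⟨F, h1, h2⟩ := hsrc s b (by simpa [Gate.isNot] using hstep s (by simp [Gate.operands]))
      obtain ⟨G, h3, h4⟩ := hsrc t b (by simpa [Gate.isNot] using hstep t (by simp [Gate.operands]))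
      cases b with
      | false =>
        refine ⟨.or F G, ?_, fun x => ?_⟩
        · simp only [MF.depth, Gate.depth]
          exact Nat.succ_le_succ (max_le_max h1 h3)
        · simp only [MF.eval, Gate.eval, h2, h4, Bool.false_xor]
      | true =>
        refine ⟨.and F G, ?_, fun x => ?_⟩
        · simp only [MF.depth, Gate.depth]
          exact Nat.succ_le_succ (max_le_max h1 h3)
        · simp only [MF.eval, Gate.eval, h2, h4, Bool.true_xor, Bool.not_or]
    | not s =>
      obtain ⟨F, h1, h2⟩ := hsrc s (!b)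
        (by simpa [Gate.isNot] using hstep s (by simp [Gate.operands]))
      refine ⟨F, ?_, fun x => ?_⟩
      · simp only [Gate.depth]
        exact h1.trans (Nat.le_succ _)
      · rw [h2]
        simp only [Gate.eval]
        cases b <;> simp

/-- a circuit in which the variables in `P` do not occur negatively becomes a monotone formula
when the other variables are fixed -/
theorem exists_mf (hP : ∀ v ∈ P, ¬ C.NegOccurs v) :
    ∃ F : MF (Fin n), F.depth ≤ C.depth ∧ ∀ x, F.eval x = C.eval (mix P ρ x) := by
  have hlift : ∀ s : Src n C.size, s.lift le_rfl = s := by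
    intro s
    cases s <;> rfl
  obtain ⟨F, h1, h2⟩ := mf_src C P ρ hP le_rfl
    (fun j hj b hb => mf_gate C P ρ hP j hj b hb) C.out false (by
      rw [hlift]
      exact Circuit.Reaches.out)
  refine ⟨F, h1, fun x => ?_⟩
  rw [h2, Bool.false_xor]
  rfl

end

end Pool.Agent.BoolCirc
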