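import Pool.Agent.NegVar.Path

/-!
Protecting a small set of variables: if all functions obtained by fixing the variables in `P` have
depth `d`, and the function is monotone in these variables, then it has a circuit of depth about
`d + 2 |P|` in which they do not occur negatively.
-/

namespace Pool.Agent.BoolCirc

variable {n : ℕ}

/-- negations pushed down to the inputs -/
theorem Fm.exists_mf (F : Fm n) : ∀ b : Bool, ∃ G : MF (Fin n ⊕ Fin n), G.depth ≤ F.depth ∧
    ∀ x : Fin n → Bool, G.eval (Sum.elim x (fun v => ! x v)) = xor b (F.eval x) := by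
  induction F with
  | inp i =>
    intro b
    cases b with
    | false => exact ⟨.inp (Sum.inl i), le_rfl, fun x => by simp [MF.eval, Fm.eval]⟩
    | true => exact ⟨.inp (Sum.inr i), le_rfl, fun x => by simp [MF.eval, Fm.eval]⟩
  | cst c => intro b; exact ⟨.cst (xor b c), le_rfl, fun x => by simp [MF.eval, Fm.eval]⟩
  | and F G ihF ihG =>
    intro b
    obtain ⟨F', h1, h2⟩ := ihF b
    obtain ⟨G', h3, h4⟩ := ihG b
    cases b with
    | false =>
      refine ⟨.and F' G', ?_, fun x => ?_⟩
      · simp only [MF.depth, Fm.depth]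
        exact Nat.succ_le_succ (max_le_max h1 h3)
      · simp only [MF.eval, Fm.eval, h2, h4, Bool.false_xor]
    | true =>
      refine ⟨.or F' G', ?_, fun x => ?_⟩
      · simp only [MF.depth, Fm.depth]
        exact Nat.succ_le_succ (max_le_max h1 h3)
      · simp only [MF.eval, Fm.eval, h2, h4, Bool.true_xor, Bool.not_and]
  | or F G ihF ihG =>
    intro b
    obtain ⟨F', h1, h2⟩ := ihF b
    obtain ⟨G', h3, h4⟩ := ihG b
    cases b with
    | false =>
      refine ⟨.or F' G', ?_, fun x => ?_⟩
      · simp only [MF.depth, Fm.depth]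
        exact Nat.succ_le_succ (max_le_max h1 h3)
      · simp only [MF.eval, Fm.eval, h2, h4, Bool.false_xor]
    | true =>
      refine ⟨.and F' G', ?_, fun x => ?_⟩
      · simp only [MF.depth, Fm.depth]
        exact Nat.succ_le_succ (max_le_max h1 h3)
      · simp only [MF.eval, Fm.eval, h2, h4, Bool.true_xor, Bool.not_or]
  | not F ihF =>
    intro b
    obtain ⟨F', h1, h2⟩ := ihF (!b)
    refine ⟨F', h1.trans (Nat.le_succ _), fun x => ?_⟩
    rw [h2]
    simp only [Fm.eval]
    cases b <;> simp

/-- literals in which the variables of `P` are not negated -/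
abbrev LitP (P : Finset (Fin n)) : Type := Fin n ⊕ {v : Fin n // v ∉ P}

/-- values of the literals -/
def litP (P : Finset (Fin n)) (x : Fin n → Bool) : LitP P → Bool :=
  Sum.elim x (fun v => ! x v.1)

/-- the formula of a circuit with the variables in `P` fixed -/
theorem Circuit.exists_mf_fix (C : Circuit n) (P : Finset (Fin n)) (T : Fin n → Bool) :
    ∃ F : MF (LitP P), F.depth ≤ C.depth ∧
      ∀ x, F.eval (litP P x) = C.eval (fun v => if v ∈ P then T v else x v) := by
  obtain ⟨F, h1, h2⟩ := C.exists_fm
  obtain ⟨G, h3, h4⟩ := F.exists_mf false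
  set g : Fin n ⊕ Fin n → MF (LitP P) := Sum.elim
    (fun v => if v ∈ P then .cst (T v) else .inp (Sum.inl v))
    (fun v => if h : v ∈ P then .cst (! T v) else .inp (Sum.inr ⟨v, h⟩)) with hg
  refine ⟨G.bind g, ?_, fun x => ?_⟩
  · have h5 := MF.depth_bind_le g 0 (by
      intro i
      rcases i with v | v
      · simp only [hg, Sum.elim_inl]
        split_ifs <;> exact le_rfl
      · simp only [hg, Sum.elim_inr]
        split_ifs <;> exact le_rfl) G
    omega
  · rw [MF.eval_bind]
    have h6 : (fun i => (g i).eval (litP P x)) =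
        Sum.elim (fun v => if v ∈ P then T v else x v)
          (fun v => ! (if v ∈ P then T v else x v)) := by
      funext i
      rcases i with v | v
      · simp only [hg, Sum.elim_inl]
        split_ifs with h
        · rfl
        · rfl
      · simp only [hg, Sum.elim_inr]
        split_ifs with h
        · rfl
        · rfl
    rw [h6, h4, h1, Bool.false_xor]

/-- freeing the variables of `Q` one after the other -/
theorem exists_mf_free (P : Finset (Fin n)) (f : (Fin n → Bool) → Bool) (d : ℕ)
    (hbase : ∀ T : Fin n → Bool, ∃ F : MF (LitP P), F.depth ≤ d ∧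
      ∀ x, F.eval (litP P x) = f (fun v => if v ∈ P then T v else x v))
    (hmono : ∀ q ∈ P, ∀ y, f (Function.update y q false) = true →
      f (Function.update y q true) = true) (Q : Finset (Fin n)) :
    Q ⊆ P → ∀ T : Fin n → Bool, ∃ F : MF (LitP P), F.depth ≤ d + 2 * Q.card ∧
      ∀ x, F.eval (litP P x) = f (fun v => if v ∈ P ∧ v ∉ Q then T v else x v) := by
  induction Q using Finset.induction_on with
  | empty =>
    intro _ T
    obtain ⟨F, h1, h2⟩ := hbase T
    refine ⟨F, by simpa using h1, fun x => ?_⟩
    rw [h2]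
    simp
  | insert q Q hq ih =>
    intro hQ T
    have hqP : q ∈ P := hQ (Finset.mem_insert_self _ _)
    have hQP : Q ⊆ P := fun v hv => hQ (Finset.mem_insert_of_mem hv)
    obtain ⟨F0, h1, h2⟩ := ih hQP (Function.update T q false)
    obtain ⟨F1, h3, h4⟩ := ih hQP (Function.update T q true)
    refine ⟨.or F0 (.and (.inp (Sum.inl q)) F1), ?_, fun x => ?_⟩
    · rw [Finset.card_insert_of_notMem hq]
      simp only [MF.depth]
      omega
    · set z : Fin n → Bool := fun v => if v ∈ P ∧ v ∉ insert q Q then T v else x v with hz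
      have hy : ∀ b, (fun v => if v ∈ P ∧ v ∉ Q then Function.update T q b v else x v) =
          Function.update z q b := by
        intro b
        funext v
        by_cases hv : v = q
        · subst hv
          simp [hqP, hq]
        · simp [hz, hv, Finset.mem_insert]
      have hzq : z q = x q := by simp [hz]
      have hzz : Function.update z q (x q) = z := by rw [← hzq, Function.update_eq_self]
      simp only [MF.eval, h2, h4, hy]
      show (f (Function.update z q false) || (x q && f (Function.update z q true))) = f z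
      have hm := hmono q hqP z
      cases hx : x q with
      | false =>
        rw [hx] at hzz
        rw [hzz]
        simp
      | true =>
        rw [hx] at hzz
        rw [hzz] at hm ⊢
        cases h5 : f (Function.update z q false) with
        | false => simp
        | true => rw [hm h5]; rfl

/-- NOT gates are only applied to variables outside `P` -/
def Clean (P : Finset (Fin n)) (C : Circuit n) : Prop :=
  ∀ (i : Fin C.size) (s : Src n i.1), C.gate i = Gate.not s → ∃ v, v ∉ P ∧ s = Src.input v

theorem Clean.not_neg {P : Finset (Fin n)} {C : Circuit n} (h : Clean P C) (v : Fin n)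
    (hv : v ∈ P) : ¬ C.NegOccurs v := by
  have key : ∀ (b : Bool) (s : Src n C.size), C.Reaches b s → b = true →
      ∃ w, w ∉ P ∧ s = Src.input w := by
    intro b s hs
    induction hs with
    | out => intro h1; exact Bool.noConfusion h1
    | @step b j s hr hs ih =>
      intro h1
      cases b with
      | true =>
        obtain ⟨w, _, h2⟩ := ih rfl
        exact Src.noConfusion rfl rfl (heq_of_eq h2)
      | false =>
        rw [Bool.false_xor] at h1
        have h2 := h j
        revert hs h1 h2
        cases C.gate j with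
        | and a b => intro _ h1 _; exact Bool.noConfusion h1
        | or a b => intro _ h1 _; exact Bool.noConfusion h1
        | not a =>
          intro hs _ h2
          obtain ⟨w, hw, hw'⟩ := h2 a rfl
          simp only [Gate.operands, List.mem_singleton] at hs
          refine ⟨w, hw, ?_⟩
          rw [hs, hw']
          rfl
  intro hneg
  obtain ⟨w, hw, hw'⟩ := key _ _ hneg rfl
  have : v = w := Src.input.inj hw'
  exact hw (this ▸ hv)

/-- the gate is not a NOT gate applied to something else than a variable outside `P` -/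
def CleanGate (P : Finset (Fin n)) {i : ℕ} (g : Gate n i) : Prop :=
  ∀ s : Src n i, g = Gate.not s → ∃ v, v ∉ P ∧ s = Src.input v

theorem CleanGate.map {P : Finset (Fin n)} {i k : ℕ} {g : Gate n i} (hg : CleanGate P g)
    (f : Fin i → Fin k) : CleanGate P (g.map f) := by
  intro s hs
  cases g with
  | and a b => exact Gate.noConfusion rfl rfl (heq_of_eq hs)
  | or a b => exact Gate.noConfusion rfl rfl (heq_of_eq hs)
  | not a =>
    obtain ⟨v, hv, rfl⟩ := hg a rfl
    refine ⟨v, hv, ?_⟩
    have := Gate.not.inj hs
    rw [← this]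
    rfl

theorem Clean.snoc {P : Finset (Fin n)} {C : Circuit n} (hC : Clean P C) (g : Gate n C.size)
    (hg : CleanGate P g) : Clean P (C.snoc g) := by
  intro i
  show CleanGate P (if h : i.1 < C.size then C.gate ⟨i.1, h⟩ else g.map _)
  by_cases h : i.1 < C.size
  · rw [dif_pos h]
    exact hC ⟨i.1, h⟩
  · rw [dif_neg h]
    exact hg.map _

/-- a formula over the allowed literals gives a clean circuit -/
theorem clean_mf (P : Finset (Fin n)) (F : MF (LitP P)) : ∀ C : Circuit n, Clean P C →
    ∃ C' : Circuit n, Ext C C' ∧ Clean P C' ∧ C'.size + 1 ≤ C.size + 2 ^ (F.depth + 1) ∧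
      Avail C' (fun x => F.eval (litP P x)) (F.depth + 1) := by
  induction F with
  | inp i =>
    intro C hC
    rcases i with v | v
    · refine ⟨C, Ext.refl C, hC, ?_, ?_⟩
      · simp [MF.depth]
      · exact Avail.input C v _
    · refine ⟨C.snoc (Gate.not (Src.input v.1)), ext_snoc _ _, hC.snoc _ ?_, ?_, ?_⟩
      · intro s hs
        exact ⟨v.1, v.2, (Gate.not.inj hs).symm⟩
      · show C.size + 1 + 1 ≤ C.size + 2 ^ (0 + 1)
        norm_num
      · exact avail_snoc C (Gate.not (Src.input v.1))
  | cst b =>
    intro C hC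
    refine ⟨C, Ext.refl C, hC, ?_, ?_⟩
    · simp [MF.depth]
    · exact Avail.const C b _
  | and F G ihF ihG =>
    intro C hC
    obtain ⟨C1, h1, h2, h3, h4⟩ := ihF C hC
    obtain ⟨C2, h5, h6, h7, h8⟩ := ihG C1 h2
    obtain ⟨o, o1, o2⟩ := h5 _ _ h4
    obtain ⟨q, q1, q2⟩ := h8
    refine ⟨C2.snoc (Gate.and o q), (h1.trans h5).trans (ext_snoc _ _), h6.snoc _ ?_, ?_, ?_⟩
    · intro s hs
      exact Gate.noConfusion rfl rfl (heq_of_eq hs)
    · have e1 : 2 ^ (F.depth + 1) ≤ 2 ^ (max F.depth G.depth + 1) :=
        Nat.pow_le_pow_right (by norm_num) (by omega)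
      have e2 : 2 ^ (G.depth + 1) ≤ 2 ^ (max F.depth G.depth + 1) :=
        Nat.pow_le_pow_right (by norm_num) (by omega)
      show C2.size + 1 + 1 ≤ C.size + 2 ^ (max F.depth G.depth + 1 + 1)
      rw [pow_succ 2 (max F.depth G.depth + 1)]
      omega
    · refine ((avail_snoc C2 (Gate.and o q)).mono ?_).congr ?_
      · simp only [Gate.depth, MF.depth]; omega
      · intro x; simp only [Gate.eval, MF.eval, o1, q1]
  | or F G ihF ihG =>
    intro C hC
    obtain ⟨C1, h1, h2, h3, h4⟩ := ihF C hC
    obtain ⟨C2, h5, h6, h7, h8⟩ := ihG C1 h2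
    obtain ⟨o, o1, o2⟩ := h5 _ _ h4
    obtain ⟨q, q1, q2⟩ := h8
    refine ⟨C2.snoc (Gate.or o q), (h1.trans h5).trans (ext_snoc _ _), h6.snoc _ ?_, ?_, ?_⟩
    · intro s hs
      exact Gate.noConfusion rfl rfl (heq_of_eq hs)
    · have e1 : 2 ^ (F.depth + 1) ≤ 2 ^ (max F.depth G.depth + 1) :=
        Nat.pow_le_pow_right (by norm_num) (by omega)
      have e2 : 2 ^ (G.depth + 1) ≤ 2 ^ (max F.depth G.depth + 1) :=
        Nat.pow_le_pow_right (by norm_num) (by omega)
      show C2.size + 1 + 1 ≤ C.size + 2 ^ (max F.depth G.depth + 1 + 1)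
      rw [pow_succ 2 (max F.depth G.depth + 1)]
      omega
    · refine ((avail_snoc C2 (Gate.or o q)).mono ?_).congr ?_
      · simp only [Gate.depth, MF.depth]; omega
      · intro x; simp only [Gate.eval, MF.eval, o1, q1]

/-- change of the output node -/
theorem avail_clean_circuit {P : Finset (Fin n)} {C : Circuit n} {f : (Fin n → Bool) → Bool}
    {d : ℕ} (hC : Clean P C) (h : Avail C f d) : ∃ C' : Circuit n, (∀ x, C'.eval x = f x) ∧
    C'.depth ≤ d ∧ C'.size = C.size ∧ Clean P C' := by
  obtain ⟨o, h1, h2⟩ := h
  have hval : ∀ (x : Fin n → Bool) (i : ℕ) (hi : i < C.size),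
      Circuit.val (⟨C.size, C.gate, o⟩ : Circuit n) x ⟨i, hi⟩ = C.val x ⟨i, hi⟩ := by
    intro x i
    induction i using Nat.strong_induction_on with
    | _ i ih =>
      intro hi
      rw [Circuit.val, Circuit.val]
      congr 1
      funext j
      exact ih j.1 j.2 (j.2.trans hi)
  have hdep : ∀ (i : ℕ) (hi : i < C.size),
      Circuit.gateDepth (⟨C.size, C.gate, o⟩ : Circuit n) ⟨i, hi⟩ = C.gateDepth ⟨i, hi⟩ := by
    intro i
    induction i using Nat.strong_induction_on with
    | _ i ih =>
      intro hi
      rw [Circuit.gateDepth, Circuit.gateDepth]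
      congr 1
      funext j
      exact ih j.1 j.2 (j.2.trans hi)
  refine ⟨⟨C.size, C.gate, o⟩, fun x => ?_, ?_, rfl, hC⟩
  · rw [← h1 x]
    unfold Circuit.eval
    congr 1
    funext j
    exact hval x j.1 j.2
  · refine le_trans (le_of_eq ?_) h2
    unfold Circuit.depth
    congr 1
    funext j
    exact hdep j.1 j.2

/-- the circuit in which the variables of `P` do not occur negatively -/
theorem protect (P : Finset (Fin n)) (f : (Fin n → Bool) → Bool) (d : ℕ)
    (hbase : ∀ T : Fin n → Bool, ∃ F : MF (LitP P), F.depth ≤ d ∧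
      ∀ x, F.eval (litP P x) = f (fun v => if v ∈ P then T v else x v))
    (hmono : ∀ q ∈ P, ∀ y, f (Function.update y q false) = true →
      f (Function.update y q true) = true) :
    ∃ C' : Circuit n, (∀ x, C'.eval x = f x) ∧ C'.depth ≤ d + 2 * P.card + 1 ∧
      C'.size ≤ 2 ^ (d + 2 * P.card + 1) ∧ ∀ v ∈ P, ¬ C'.NegOccurs v := by
  obtain ⟨F, h1, h2⟩ := exists_mf_free P f d hbase hmono P (fun _ h => h) (fun _ => false)
  obtain ⟨C1, h3, h4, h5, h6⟩ := clean_mf P F (Circuit.empty n) (by
    intro i
    exact i.elim0)
  obtain ⟨C', h7, h8, h9, h10⟩ := avail_clean_circuit h4 h6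
  refine ⟨C', fun x => ?_, by omega, ?_, fun v hv => h10.not_neg v hv⟩
  · rw [h7, h2]
    congr 1
    funext v
    simp
  · have h11 : (Circuit.empty n).size = 0 := rfl
    have h12 : 2 ^ (F.depth + 1) ≤ 2 ^ (d + 2 * P.card + 1) :=
      Nat.pow_le_pow_right (by norm_num) (by omega)
    omega

/-- a circuit is monotone in a variable that does not occur negatively -/
theorem mono_of_not_neg (C : Circuit n) (P : Finset (Fin n)) (hP : ∀ v ∈ P, ¬ C.NegOccurs v)
    (q : Fin n) (hq : q ∈ P) (y : Fin n → Bool)
    (h : C.eval (Function.update y q false) = true) :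
    C.eval (Function.update y q true) = true := by
  obtain ⟨F, _, h2⟩ := exists_mf C P y hP
  have h3 : ∀ b, mix P y (Function.update y q b) = Function.update y q b := by
    intro b
    funext v
    unfold mix
    by_cases hv : v ∈ P
    · rw [if_pos hv]
    · rw [if_neg hv]
      have : v ≠ q := fun h => hv (h ▸ hq)
      rw [Function.update_of_ne this]
  have h4 := fun b => (h2 (Function.update y q b))
  simp only [h3] at h4
  rw [← h4] at h ⊢
  refine F.eval_mono ?_ h
  intro i hi
  by_cases hiq : i = q
  · subst hiq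
    simp
  · rw [Function.update_of_ne hiq] at hi ⊢
    exact hi

end Pool.Agent.BoolCirc
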