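import Pool.Agent.NegVar.Path
import Pool.Agent.NegVar.Mux
import Pool.Agent.NegVar.Compose

/-!
Composition of a monotone circuit with multiplexers: a monotone circuit such that every shallow
equivalent circuit negates almost all data inputs.
-/

namespace Pool.Agent.BoolCirc

/-- the inputs: `2 ^ L` data bits and, for each of `k` variables, an address of `L` bits in double
rail -/
abbrev PickVar (k L : ℕ) : Type := Fin (2 ^ L) ⊕ (Fin k × Fin L × Bool)

/-- the value of `G` on the selected data bits -/
def pickFun {k : ℕ} (G : Circuit k) (L : ℕ) (X : PickVar k L → Bool) : Bool :=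
  G.eval (fun e => mux L
    (fun b => if h : b < L then X (Sum.inr (e, ⟨b, h⟩, true)) else false)
    (fun b => if h : b < L then X (Sum.inr (e, ⟨b, h⟩, false)) else false)
    (fun i => if h : i < 2 ^ L then X (Sum.inl ⟨i, h⟩) else false))

/-- numbering of the inputs -/
noncomputable def pickEquiv (k L : ℕ) : PickVar k L ≃ Fin (Fintype.card (PickVar k L)) :=
  Fintype.equivFin _

theorem avE_ite {n : ℕ} (C : Circuit n) {q : Prop} [Decidable q] (v : q → Fin n) :
    AvE C (fun X => if h : q then X (v h) else false) := by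
  by_cases h : q
  · simp only [h, dif_pos]
    exact ⟨0, Avail.input C _ 0⟩
  · simp only [h, dif_neg, not_false_eq_true]
    exact ⟨0, Avail.const C false 0⟩

theorem pick_circuit {k : ℕ} (G : Circuit k) (hG : G.nots = 0) (L : ℕ) :
    ∃ M : Circuit (Fintype.card (PickVar k L)),
      (∀ X, M.eval X = pickFun G L (fun v => X (pickEquiv k L v))) ∧ M.nots = 0 ∧
        M.size ≤ k * (3 * (2 ^ L - 1)) + G.size := by
  set P : Fin k → (Fin (Fintype.card (PickVar k L)) → Bool) → Bool := fun e X => mux L
      (fun b => if h : b < L then X (pickEquiv k L (Sum.inr (e, ⟨b, h⟩, true))) else false)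
      (fun b => if h : b < L then X (pickEquiv k L (Sum.inr (e, ⟨b, h⟩, false))) else false)
      (fun i => if h : i < 2 ^ L then X (pickEquiv k L (Sum.inl ⟨i, h⟩)) else false) with hP
  obtain ⟨C1, h1, h2⟩ := avE_family (ι := Fin k) P
    (3 * (2 ^ L - 1)) (Circuit.empty _) (by
      intro e C' _
      exact avE_mux
        (fun b X => if h : b < L then X (pickEquiv k L (Sum.inr (e, ⟨b, h⟩, true))) else false)
        (fun b X => if h : b < L then X (pickEquiv k L (Sum.inr (e, ⟨b, h⟩, false))) else false)
        L
        (fun i X => if h : i < 2 ^ L then X (pickEquiv k L (Sum.inl ⟨i, h⟩)) else false) C'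
        (fun b => avE_ite C' (fun h => pickEquiv k L (Sum.inr (e, ⟨b, h⟩, true))))
        (fun b => avE_ite C' (fun h => pickEquiv k L (Sum.inr (e, ⟨b, h⟩, false))))
        (fun i => avE_ite C' (fun h => pickEquiv k L (Sum.inl ⟨i, h⟩))))
  choose dd hdd using h2
  obtain ⟨C2, h3, h4⟩ := extN_subst G C1 P (Finset.univ.sup dd)
    (fun e => (hdd e).mono (Finset.le_sup (Finset.mem_univ e)))
  obtain ⟨M, f1, f2, f3, f4⟩ := h4.exists_circuit_nots
  have h6 : (Circuit.empty (Fintype.card (PickVar k L))).nots = 0 := by
    unfold Circuit.nots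
    rw [Finset.card_eq_zero]
    ext i
    exact i.elim0
  have h7 : (Circuit.empty (Fintype.card (PickVar k L))).size = 0 := rfl
  have h8 := (h1.trans h3).2
  rw [Fintype.card_fin] at h8
  refine ⟨M, fun X => ?_, by omega, by omega⟩
  rw [f1]
  rfl

open Classical in
/-- an equivalent circuit in which enough data bits do not occur negatively is deep -/
theorem pick_lower {k : ℕ} (G : Circuit k) (L H : ℕ)
    (hlow : ∀ F : MF (Fin k), (∀ w, F.eval w = G.eval w) → H ≤ F.depth)
    (C : Circuit (Fintype.card (PickVar k L)))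
    (hC : ∀ X, C.eval X = pickFun G L (fun v => X (pickEquiv k L v)))
    (emb : Fin k → Fin (2 ^ L)) (hemb : Function.Injective emb)
    (hneg : ∀ e, ¬ C.NegOccurs (pickEquiv k L (Sum.inl (emb e)))) : H ≤ C.depth := by
  set E := pickEquiv k L with hE
  set P : Finset (Fin (Fintype.card (PickVar k L))) :=
    Finset.univ.filter (fun v => ∃ e, v = E (Sum.inl (emb e))) with hP
  set ρ : Fin (Fintype.card (PickVar k L)) → Bool := fun v =>
    match E.symm v with
    | Sum.inl _ => false
    | Sum.inr (e, b, true) => (emb e).1.testBit b.1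
    | Sum.inr (e, b, false) => ! (emb e).1.testBit b.1 with hρ
  obtain ⟨F, hF1, hF2⟩ := exists_mf C P ρ (by
    intro v hv
    obtain ⟨e, rfl⟩ := (Finset.mem_filter.mp hv).2
    exact hneg e)
  set g : Fin (Fintype.card (PickVar k L)) → MF (Fin k) := fun v =>
    if h : ∃ e, v = E (Sum.inl (emb e)) then .inp h.choose else .cst false with hg
  have hge : ∀ (e : Fin k) (w : Fin k → Bool),
      (g (E (Sum.inl (emb e)))).eval w = w e := by
    intro e w
    have h : ∃ e', E (Sum.inl (emb e)) = E (Sum.inl (emb e')) := ⟨e, rfl⟩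
    have h1 : h.choose = e := by
      have h2 := h.choose_spec
      exact (hemb (Sum.inl.inj (E.injective h2))).symm
    simp only [hg]
    rw [dif_pos h]
    simp only [MF.eval]
    rw [h1]
  have hgd : ∀ v, (g v).depth ≤ 0 := by
    intro v
    simp only [hg]
    split_ifs with h
    · exact le_rfl
    · exact le_rfl
  have key : ∀ w, (F.bind g).eval w = G.eval w := by
    intro w
    rw [MF.eval_bind, hF2, hC]
    unfold pickFun
    congr 1
    funext e
    rw [mux_eq (emb e).1]
    · rw [Nat.mod_eq_of_lt (emb e).2, dif_pos (emb e).2]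
      have hmem : E (Sum.inl (emb e)) ∈ P := by
        rw [hP, Finset.mem_filter]
        exact ⟨Finset.mem_univ _, e, rfl⟩
      show mix P ρ _ (E (Sum.inl ⟨(emb e).1, (emb e).2⟩)) = w e
      rw [Fin.eta]
      unfold mix
      rw [if_pos hmem]
      exact hge e w
    · intro b hb
      have hnot : ∀ c, E (Sum.inr (e, ⟨b, hb⟩, c)) ∉ P := by
        intro c hc
        obtain ⟨e', he'⟩ := (Finset.mem_filter.mp hc).2
        exact absurd (E.injective he') (by simp)
      constructor
      · rw [dif_pos hb]
        show mix P ρ _ (E (Sum.inr (e, ⟨b, hb⟩, true))) = _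
        unfold mix
        rw [if_neg (hnot true)]
        simp only [hρ, Equiv.symm_apply_apply]
      · rw [dif_pos hb]
        show mix P ρ _ (E (Sum.inr (e, ⟨b, hb⟩, false))) = _
        unfold mix
        rw [if_neg (hnot false)]
        simp only [hρ, Equiv.symm_apply_apply]
  have h1 := hlow (F.bind g) key
  have h2 := MF.depth_bind_le g 0 hgd F
  omega

/-- circuits without NOT gates have no negative occurrences -/
theorem not_neg_of_nots {n : ℕ} (C : Circuit n) (h : C.nots = 0) (v : Fin n) :
    ¬ C.NegOccurs v := by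
  have h1 : ∀ i : Fin C.size, (C.gate i).isNot = false := by
    intro i
    by_contra h2
    rw [Bool.not_eq_false] at h2
    unfold Circuit.nots at h
    rw [Finset.card_eq_zero] at h
    have : i ∈ (∅ : Finset (Fin C.size)) := by
      rw [← h, Finset.mem_filter]
      exact ⟨Finset.mem_univ _, h2⟩
    exact absurd this (Finset.notMem_empty _)
  have h2 : ∀ (b : Bool) (s : Src n C.size), C.Reaches b s → b = false := by
    intro b s hs
    induction hs with
    | out => rfl
    | step _ _ ih => rw [ih, h1]; rfl
  intro h3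
  exact Bool.noConfusion (h2 _ _ h3)

theorem pad_size {n : ℕ} (M : Circuit n) (hM : M.nots = 0) (S : ℕ) (h : M.size ≤ S) :
    ∃ M' : Circuit n, (∀ x, M'.eval x = M.eval x) ∧ M'.nots = 0 ∧ M'.size = S := by
  have key : ∀ d : ℕ, ∃ C : Circuit n, Ext M C ∧ C.nots ≤ M.nots ∧ C.size = M.size + d := by
    intro d
    induction d with
    | zero => exact ⟨M, Ext.refl M, le_rfl, rfl⟩
    | succ d ih =>
      obtain ⟨C, h1, h2, h3⟩ := ih
      refine ⟨C.snoc (Gate.and (Src.const true) (Src.const true)), h1.trans (ext_snoc _ _), ?_, ?_⟩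
      · rw [Circuit.nots_snoc]
        simpa [Gate.isNot] using h2
      · show C.size + 1 = _
        omega
  obtain ⟨C, h1, h2, h3⟩ := key (S - M.size)
  have h4 : Avail M (fun x => M.eval x) M.depth := ⟨M.out, fun x => rfl, le_rfl⟩
  obtain ⟨M', f1, f2, f3, f4⟩ := (h1 _ _ h4).exists_circuit_nots
  exact ⟨M', f1, by omega, by omega⟩

end Pool.Agent.BoolCirc
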