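import Pool.Agent.NegVar.Select

/-!
The lower bounds for protected inputs, from monotone functions on `k` variables with monotone
circuits of size `4 k` and monotone depth about `k / (log k)^8`.
-/

namespace Pool.Agent.BoolCirc

/-- on `k ≥ K 2^i (i + 1)^8` variables there is a monotone function with a monotone circuit of size
`4 k` and without monotone formulas of depth less than `2 ^ i` -/
def StrongMono (K : ℕ) : Prop := ∀ i k : ℕ, K * 2 ^ i * (i + 1) ^ 8 ≤ k →
  ∃ G : Circuit k, G.nots = 0 ∧ G.size ≤ 4 * k ∧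
    ∀ F : MF (Fin k), (∀ y, F.eval y = G.eval y) → 2 ^ i ≤ F.depth

/-- number of variables for which the monotone depth exceeds `D` -/
def hvars (K D : ℕ) : ℕ := (K + 1) * 2 ^ (Nat.log 2 D + 1) * (Nat.log 2 D + 2) ^ 8

theorem hvars_large (K D : ℕ) : 2 ≤ hvars K D := by
  unfold hvars
  have h1 : 2 ≤ 2 ^ (Nat.log 2 D + 1) := by
    rw [pow_succ]
    have := Nat.one_le_two_pow (n := Nat.log 2 D)
    omega
  have h2 : 1 ≤ (Nat.log 2 D + 2) ^ 8 := Nat.one_le_pow _ _ (by omega)
  calc 2 = 1 * 2 * 1 := by norm_num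
    _ ≤ (K + 1) * 2 ^ (Nat.log 2 D + 1) * (Nat.log 2 D + 2) ^ 8 :=
      Nat.mul_le_mul (Nat.mul_le_mul (by omega) h1) h2

theorem hvars_le (K D : ℕ) (hD : 1 ≤ D) :
    hvars K D ≤ 512 * (K + 1) * D * (Nat.log 2 D + 1) ^ 8 := by
  unfold hvars
  have h1 : 2 ^ (Nat.log 2 D + 1) ≤ 2 * D := by
    rw [pow_succ, mul_comm]
    exact Nat.mul_le_mul_left _ (Nat.pow_log_le_self 2 (by omega))
  have h2 : (Nat.log 2 D + 2) ^ 8 ≤ 256 * (Nat.log 2 D + 1) ^ 8 := by
    calc (Nat.log 2 D + 2) ^ 8 ≤ (2 * (Nat.log 2 D + 1)) ^ 8 := Nat.pow_le_pow_left (by omega) 8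
      _ = 256 * (Nat.log 2 D + 1) ^ 8 := by rw [mul_pow]; norm_num
  calc (K + 1) * 2 ^ (Nat.log 2 D + 1) * (Nat.log 2 D + 2) ^ 8
      ≤ (K + 1) * (2 * D) * (256 * (Nat.log 2 D + 1) ^ 8) :=
        Nat.mul_le_mul (Nat.mul_le_mul_left _ h1) h2
    _ = 512 * (K + 1) * D * (Nat.log 2 D + 1) ^ 8 := by ring

theorem exists_hard {K : ℕ} (hK : StrongMono K) (D : ℕ) : ∃ G : Circuit (hvars K D),
    G.nots = 0 ∧ G.size ≤ 4 * hvars K D ∧
      ∀ F : MF (Fin (hvars K D)), (∀ y, F.eval y = G.eval y) → D + 1 ≤ F.depth := by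
  obtain ⟨G, h1, h2, h3⟩ := hK (Nat.log 2 D + 1) (hvars K D) (by
    unfold hvars
    exact Nat.mul_le_mul_right _ (Nat.mul_le_mul_right _ (by omega)))
  refine ⟨G, h1, h2, fun F hF => ?_⟩
  have h4 := h3 F hF
  have h5 : D < 2 ^ (Nat.log 2 D + 1) := Nat.lt_pow_succ_log_self (by norm_num) D
  omega

theorem size_bound (k L s : ℕ) (h : s ≤ k * (3 * (2 ^ L - 1)) + 4 * k) : s ≤ 4 * k * 2 ^ L := by
  have h1 : 1 ≤ 2 ^ L := Nat.one_le_two_pow
  obtain ⟨w, hw⟩ : ∃ w, 2 ^ L = w + 1 := ⟨2 ^ L - 1, by omega⟩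
  rw [hw] at h ⊢
  have h2 : w + 1 - 1 = w := by omega
  rw [h2] at h
  have h3 : k * (3 * w) + 4 * k ≤ 4 * k * (w + 1) := by
    have : 4 * k * (w + 1) = k * (3 * w) + 4 * k + k * w := by ring
    omega
  omega

open Classical in
theorem neg_inputs_core (S D k B : ℕ) (G : Circuit k) (g1 : G.nots = 0) (g2 : G.size ≤ 4 * k)
    (g3 : ∀ F : MF (Fin k), (∀ y, F.eval y = G.eval y) → D + 1 ≤ F.depth) (hk2 : 2 ≤ k)
    (hkB : 16 * k ≤ B) : ∃ (n : ℕ) (M : Circuit n) (X : Finset (Fin n)),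
      S ≤ X.card * B ∧ M.size ≤ S ∧ M.nots = 0 ∧
      ∀ C : Circuit n, (∀ x, C.eval x = M.eval x) → C.depth ≤ D →
        (X.filter (fun v => ¬ C.NegOccurs v)).card ≤ B := by
  rcases Nat.lt_or_ge S (16 * k) with hlt | hge
  · refine ⟨1, Circuit.empty 1, Finset.univ, ?_, Nat.zero_le _, ?_, ?_⟩
    · rw [Finset.card_univ, Fintype.card_fin]
      omega
    · unfold Circuit.nots
      rw [Finset.card_eq_zero]
      ext i
      exact i.elim0
    · intro C _ _
      refine (Finset.card_filter_le _ _).trans ?_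
      rw [Finset.card_univ, Fintype.card_fin]
      omega
  · set L := Nat.log 2 (S / (4 * k)) with hL
    have h40 : 0 < 4 * k := by omega
    have hdiv : S / (4 * k) ≠ 0 := by
      have : 4 ≤ S / (4 * k) := by
        rw [Nat.le_div_iff_mul_le h40]
        omega
      omega
    have hL1 : 4 * k * 2 ^ L ≤ S := by
      have := Nat.pow_log_le_self 2 hdiv
      rw [← hL, Nat.le_div_iff_mul_le h40] at this
      rw [mul_comm]
      exact this
    have hL2 : S < 4 * k * 2 ^ (L + 1) := by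
      have := Nat.lt_pow_succ_log_self (b := 2) (by norm_num) (S / (4 * k))
      rw [← hL, Nat.div_lt_iff_lt_mul h40] at this
      rw [mul_comm (4 * k)]
      exact this
    obtain ⟨M, m1, m2, m3⟩ := pick_circuit G g1 L
    set E := pickEquiv k L with hE
    refine ⟨_, M, Finset.univ.image (fun a : Fin (2 ^ L) => E (Sum.inl a)), ?_,
      (size_bound k L _ (m3.trans (by omega))).trans hL1, m2, ?_⟩
    · rw [Finset.card_image_of_injective _ (fun a b h => Sum.inl.inj (E.injective h)),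
        Finset.card_univ, Fintype.card_fin]
      calc S ≤ 4 * k * 2 ^ (L + 1) := hL2.le
        _ = 2 ^ L * (8 * k) := by rw [pow_succ]; ring
        _ ≤ 2 ^ L * B := Nat.mul_le_mul_left _ (by omega)
    · intro C hC hdep
      by_contra hcon
      push Not at hcon
      set A : Finset (Fin (2 ^ L)) :=
        Finset.univ.filter (fun a => ¬ C.NegOccurs (E (Sum.inl a))) with hA
      have hsub : (Finset.univ.image (fun a : Fin (2 ^ L) => E (Sum.inl a))).filter
          (fun v => ¬ C.NegOccurs v) ⊆ A.image (fun a => E (Sum.inl a)) := by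
        intro v hv
        obtain ⟨h1, h2⟩ := Finset.mem_filter.mp hv
        obtain ⟨a, _, rfl⟩ := Finset.mem_image.mp h1
        exact Finset.mem_image_of_mem _ (Finset.mem_filter.mpr ⟨Finset.mem_univ _, h2⟩)
      have hAk : k ≤ A.card := by
        have h1 := (Finset.card_le_card hsub).trans Finset.card_image_le
        omega
      have h1 : Fintype.card (Fin k) ≤ Fintype.card A := by
        rw [Fintype.card_coe, Fintype.card_fin]
        exact hAk
      obtain ⟨f⟩ := Function.Embedding.nonempty_of_card_le h1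
      have h2 := pick_lower G L (D + 1) g3 C (fun X => (hC X).trans (m1 X)) (fun e => (f e).1)
        (fun e e' h => f.injective (Subtype.ext h))
        (fun e => (Finset.mem_filter.mp (f e).2).2)
      omega

open Classical in
theorem neg_inputs_sharp {K : ℕ} (hK : StrongMono K) (S D : ℕ) (hS : 2 ≤ S)
    (hSD : S ≤ 2 ^ D) : ∃ (n : ℕ) (M : Circuit n) (X : Finset (Fin n)),
      S ≤ X.card * (8192 * (K + 1) * D * (Nat.log 2 D + 1) ^ 8) ∧ M.size ≤ S ∧ M.nots = 0 ∧
      ∀ C : Circuit n, (∀ x, C.eval x = M.eval x) → C.depth ≤ D →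
        (X.filter (fun v => ¬ C.NegOccurs v)).card ≤
          8192 * (K + 1) * D * (Nat.log 2 D + 1) ^ 8 := by
  have hD : 1 ≤ D := by
    rcases Nat.eq_zero_or_pos D with h | h
    · subst h
      rw [pow_zero] at hSD
      omega
    · exact h
  obtain ⟨G, g1, g2, g3⟩ := exists_hard hK D
  refine neg_inputs_core S D (hvars K D) _ G g1 g2 g3 (hvars_large K D) ?_
  have hB := hvars_le K D hD
  have : 8192 * (K + 1) * D * (Nat.log 2 D + 1) ^ 8 =
      16 * (512 * (K + 1) * D * (Nat.log 2 D + 1) ^ 8) := by ring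
  omega

theorem hard_core (S D k : ℕ) (G : Circuit k) (g1 : G.nots = 0) (g2 : G.size ≤ 4 * k)
    (g3 : ∀ F : MF (Fin k), (∀ y, F.eval y = G.eval y) → D + 1 ≤ F.depth) (hk2 : 2 ≤ k)
    (hS : 8 * k ^ 2 ≤ S) :
    ∃ (n : ℕ) (M : Circuit n) (P : Finset (Fin n)), M.size = S ∧ M.nots = 0 ∧
      P.card ≤ k ∧
      ∀ C : Circuit n, (∀ x, C.eval x = M.eval x) → (∀ v ∈ P, ¬ C.NegOccurs v) →
        D < C.depth := by
  set L := Nat.clog 2 k with hL
  have hL1 : k ≤ 2 ^ L := Nat.le_pow_clog (by norm_num) k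
  have hL2 : 2 ^ L < 2 * k := by
    have h1 := Nat.pow_pred_clog_lt_self (b := 2) (by norm_num) (show 1 < k by omega)
    have h2 : 0 < L := Nat.clog_pos (by norm_num) (show 1 < k by omega)
    rw [← hL] at h1
    have h3 : 2 ^ L = 2 ^ L.pred * 2 := by
      rw [← pow_succ]
      congr 1
      exact (Nat.succ_pred_eq_of_pos h2).symm
    omega
  obtain ⟨M0, m1, m2, m3⟩ := pick_circuit G g1 L
  have hsz : M0.size ≤ S := by
    calc M0.size ≤ 4 * k * 2 ^ L := size_bound k L _ (m3.trans (by omega))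
      _ ≤ 4 * k * (2 * k) := Nat.mul_le_mul_left _ hL2.le
      _ = 8 * k ^ 2 := by ring
      _ ≤ S := hS
  obtain ⟨M, f1, f2, f3⟩ := pad_size M0 m2 S hsz
  have h1 : Fintype.card (Fin k) ≤ Fintype.card (Fin (2 ^ L)) := by
    rw [Fintype.card_fin, Fintype.card_fin]
    exact hL1
  obtain ⟨emb⟩ := Function.Embedding.nonempty_of_card_le h1
  refine ⟨_, M, Finset.univ.image (fun e => pickEquiv k L (Sum.inl (emb e))), f3, f2, ?_, ?_⟩
  · refine Finset.card_image_le.trans ?_
    rw [Finset.card_univ, Fintype.card_fin]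
  · intro C hC hneg
    exact pick_lower G L (D + 1) g3 C (fun X => (hC X).trans ((f1 X).trans (m1 X))) emb
      emb.injective (fun e => hneg _ (Finset.mem_image_of_mem _ (Finset.mem_univ e)))

theorem hard_protected_sharp {K : ℕ} (hK : StrongMono K) (D S : ℕ)
    (hS : 8 * (hvars K D) ^ 2 ≤ S) :
    ∃ (n : ℕ) (M : Circuit n) (P : Finset (Fin n)), M.size = S ∧ M.nots = 0 ∧
      P.card ≤ hvars K D ∧
      ∀ C : Circuit n, (∀ x, C.eval x = M.eval x) → (∀ v ∈ P, ¬ C.NegOccurs v) →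
        D < C.depth := by
  obtain ⟨G, g1, g2, g3⟩ := exists_hard hK D
  exact hard_core S D (hvars K D) G g1 g2 g3 (hvars_large K D) hS

theorem numerics (K c k : ℕ) (hc : 1 ≤ c) : ∃ N : ℕ, ∀ S : ℕ, N ≤ S → 2 ≤ S ∧
    (hvars K ⌊(c : ℝ) * (Real.logb 2 S) ^ k⌋₊ : ℝ) ≤
      (Real.logb 2 S) ^ k * (Real.logb 2 (Real.logb 2 S)) ^ 9 ∧
    8 * ((Real.logb 2 S) ^ k * (Real.logb 2 (Real.logb 2 S)) ^ 9) ^ 2 ≤ S := by
  have hl2 := Real.log_pos (show (1 : ℝ) < 2 by norm_num)
  have h1 := (Real.isLittleO_pow_log_id_atTop (n := (k + 9) * 2)).bound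
    (show (0 : ℝ) < (Real.log 2) ^ ((k + 9) * 2) / 8 by positivity)
  have h2 := tendsto_natCast_atTop_atTop (R := ℝ)
  have h3 : Filter.Tendsto (fun n : ℕ => Real.logb 2 (n : ℝ)) Filter.atTop Filter.atTop :=
    (Real.tendsto_logb_atTop (by norm_num)).comp h2
  have h4 : Filter.Tendsto (fun n : ℕ => Real.logb 2 (Real.logb 2 (n : ℝ)))
      Filter.atTop Filter.atTop := (Real.tendsto_logb_atTop (by norm_num)).comp h3
  have h5 := ((h3.eventually_ge_atTop 2).and
    (h4.eventually_ge_atTop (512 * (K + 1) * c * ((c : ℝ) + k + 1) ^ 8 + 1))).and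
      ((h2.eventually h1).and (Filter.eventually_ge_atTop 2))
  obtain ⟨N, hN⟩ := Filter.eventually_atTop.mp h5
  refine ⟨N, fun S hS => ?_⟩
  obtain ⟨⟨h6, h7⟩, h8, h9⟩ := hN S hS
  refine ⟨h9, ?_⟩
  have hS1 : (1 : ℝ) ≤ S := by exact_mod_cast (by omega : 1 ≤ S)
  have hlog0 : 0 ≤ Real.log S := Real.log_nonneg hS1
  rw [Real.norm_of_nonneg (by positivity), id, Real.norm_of_nonneg (by positivity)] at h8
  have hx8 : 8 * (Real.logb 2 (S : ℝ)) ^ ((k + 9) * 2) ≤ S := by
    rw [Real.logb, div_pow]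
    generalize (k + 9) * 2 = e at h8 ⊢
    have h10 : 0 < Real.log 2 ^ e := by positivity
    rw [← mul_div_assoc, div_le_iff₀ h10]
    nlinarith
  set x := Real.logb 2 (S : ℝ) with hx
  set y := Real.logb 2 x with hy
  have hx1 : 1 ≤ x := by linarith
  have hx0 : 0 < x := by linarith
  have hKc : (0 : ℝ) ≤ 512 * (K + 1) * c * ((c : ℝ) + k + 1) ^ 8 := by positivity
  have hy1 : 1 ≤ y := by linarith
  have hyx : y ≤ x := by
    rw [hy, Real.logb_le_iff_le_rpow (by norm_num) hx0]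
    have h11 : (x : ℝ) ≤ Real.exp (x * Real.log 2) := by
      have h12 := Real.add_one_le_exp (x * Real.log 2 - 1 + (1 - Real.log 2) * 0)
      have h13 : Real.exp 1 ≥ 2 := by
        have := Real.add_one_le_exp (1 : ℝ)
        linarith
      have h14 : x * Real.log 2 ≤ Real.exp (x * Real.log 2 - 1) := by
        have := Real.add_one_le_exp (x * Real.log 2 - 1)
        linarith
      have h15 : Real.exp (x * Real.log 2) = Real.exp (x * Real.log 2 - 1) * Real.exp 1 := by
        rw [← Real.exp_add]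
        congr 1
        ring
      have h16 : (1 : ℝ) / 2 ≤ Real.log 2 := by
        have := Real.log_two_gt_d9
        linarith
      have h17 : 0 < Real.exp (x * Real.log 2 - 1) := Real.exp_pos _
      rw [h15]
      nlinarith
    rw [Real.rpow_def_of_pos (by norm_num), mul_comm]
    exact h11
  constructor
  · set D := ⌊(c : ℝ) * x ^ k⌋₊ with hD
    have hxk : 1 ≤ x ^ k := one_le_pow₀ hx1
    have hcr : (1 : ℝ) ≤ c := by exact_mod_cast hc
    have hD1 : 1 ≤ D := by
      rw [hD]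
      exact Nat.le_floor (by push_cast; nlinarith)
    have hDle : (D : ℝ) ≤ c * x ^ k := Nat.floor_le (by positivity)
    have hD0 : (0 : ℝ) < D := by exact_mod_cast hD1
    have hlogD : ((Nat.log 2 D : ℕ) : ℝ) ≤ c + k * y := by
      have e1 : ((Nat.log 2 D : ℕ) : ℝ) ≤ Real.logb 2 D := by
        rw [Real.le_logb_iff_rpow_le (by norm_num) hD0, Real.rpow_natCast]
        exact_mod_cast Nat.pow_log_le_self 2 (by omega)
      have e2 : Real.logb 2 D ≤ Real.logb 2 (c * x ^ k) :=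
        Real.logb_le_logb_of_le (by norm_num) hD0 hDle
      have e3 : Real.logb 2 ((c : ℝ) * x ^ k) = Real.logb 2 c + k * y := by
        rw [Real.logb_mul (by positivity) (by positivity), Real.logb_pow]
      have e4 : Real.logb 2 (c : ℝ) ≤ c := by
        rw [Real.logb_le_iff_le_rpow (by norm_num) (by linarith), Real.rpow_natCast]
        exact_mod_cast (Nat.lt_two_pow_self (n := c)).le
      linarith
    have hlogD' : ((Nat.log 2 D : ℕ) : ℝ) + 1 ≤ (c + k + 1) * y := by
      have : (c : ℝ) ≤ c * y := le_mul_of_one_le_right (by linarith) hy1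
      nlinarith
    have h20 : (hvars K D : ℝ) ≤
        512 * (K + 1) * D * (((Nat.log 2 D : ℕ) : ℝ) + 1) ^ 8 := by
      exact_mod_cast hvars_le K D hD1
    calc (hvars K D : ℝ) ≤ 512 * (K + 1) * D * (((Nat.log 2 D : ℕ) : ℝ) + 1) ^ 8 := h20
      _ ≤ 512 * (K + 1) * (c * x ^ k) * ((c + k + 1) * y) ^ 8 := by
          apply mul_le_mul
          · exact mul_le_mul_of_nonneg_left hDle (by positivity)
          · exact pow_le_pow_left₀ (by positivity) hlogD' 8
          · positivity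
          · positivity
      _ = x ^ k * y ^ 8 * (512 * (K + 1) * c * ((c : ℝ) + k + 1) ^ 8) := by ring
      _ ≤ x ^ k * y ^ 8 * y := mul_le_mul_of_nonneg_left (by linarith) (by positivity)
      _ = x ^ k * y ^ 9 := by ring
  · have h21 : x ^ k * y ^ 9 ≤ x ^ (k + 9) := by
      rw [pow_add]
      exact mul_le_mul_of_nonneg_left (pow_le_pow_left₀ (by linarith) hyx 9) (by positivity)
    calc 8 * (x ^ k * y ^ 9) ^ 2 ≤ 8 * (x ^ (k + 9)) ^ 2 :=
          mul_le_mul_of_nonneg_left (pow_le_pow_left₀ (by positivity) h21 2) (by norm_num)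
      _ = 8 * x ^ ((k + 9) * 2) := by rw [pow_mul]
      _ ≤ S := hx8

end Pool.Agent.BoolCirc
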