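import Pool.Agent.NegThr.PL10
import Pool.Agent.NegVar.Sharp

/-!
Monotone functions with small monotone circuits and without shallow monotone formulas, as circuits.
-/

namespace Pool.Agent.BoolCirc

theorem exists_strongMono : ∃ K, StrongMono K := by
  obtain ⟨K, hK⟩ := strong_mono
  refine ⟨K, fun i k hk => ?_⟩
  obtain ⟨g, _, h2, h3⟩ := hK i k hk
  obtain ⟨C', h4, d, h5⟩ := h3 k id (Circuit.empty k)
  obtain ⟨G, f1, _, f3, f4⟩ := h5.exists_circuit_nots
  have hs : (Circuit.empty k).size = 0 := rfl
  have hn : (Circuit.empty k).nots = 0 := by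
    unfold Circuit.nots
    rw [Finset.card_eq_zero]
    ext i
    exact i.elim0
  refine ⟨G, ?_, ?_, fun F hF => h2 F fun y => ?_⟩
  · have := h4.2.2
    omega
  · have := h4.2.1
    omega
  · rw [hF, f1]
    rfl

end Pool.Agent.BoolCirc
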