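import Pool.Agent.NegVar.Lower
import Pool.Agent.NegVar.Clean

/-!
Monotone circuits of any given large size with a small set of variables that cannot be protected
in small depth.
-/

namespace Pool.Agent.BoolCirc

theorem pad_nots {n : ℕ} (M : Circuit n) (hM : M.nots = 0) (S : ℕ) (h : M.size ≤ S) :
    ∃ M' : Circuit n, (∀ x, M'.eval x = M.eval x) ∧ M'.nots = 0 ∧ M'.size = S := by
  have key : ∀ d : ℕ, ∃ C : Circuit n, Ext M C ∧ C.nots ≤ M.nots ∧ C.size = M.size + d := by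
    intro d
    induction d with
    | zero => exact ⟨M, Ext.refl M, le_rfl, rfl⟩
    | succ d ih =>
      obtain ⟨C, h1, h2, h3⟩ := ih
      refine ⟨C.snoc (Gate.and (Src.const true) (Src.const true)), h1.trans (ext_snoc _ _), ?_, ?_⟩
      · rw [Circuit.nots_snoc]
        simpa [Gate.isNot] using h2
      · show C.size + 1 = _
        omega
  obtain ⟨C, h1, h2, h3⟩ := key (S - M.size)
  have h4 : Avail M (fun x => M.eval x) M.depth := ⟨M.out, fun x => rfl, le_rfl⟩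
  obtain ⟨M', f1, f2, f3, f4⟩ := (h1 _ _ h4).exists_circuit_nots
  exact ⟨M', f1, by omega, by omega⟩

open Classical in
theorem hard_aux (D B S p : ℕ) (hp : 2 ≤ p)
    (hr : Fintype.card (RVar (D + 1) p) ≤ B)
    (hlow : ∀ F : MF (RVar (D + 1) p), (∀ w, F.eval w = gad (D + 1) p w) → D + 1 ≤ F.depth)
    (hS : 6 * B ^ 2 ≤ S) :
    ∃ (n : ℕ) (M : Circuit n) (P : Finset (Fin n)), M.size = S ∧ M.nots = 0 ∧ P.card ≤ B ∧
      ∀ C : Circuit n, (∀ x, C.eval x = M.eval x) → (∀ v ∈ P, ¬ C.NegOccurs v) →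
        D < C.depth := by
  have hr2 : 1 < Fintype.card (RVar (D + 1) p) := by
    rw [card_rvar]
    have : 0 ≤ (D + 1 + 1) ^ 2 * p ^ 3 := Nat.zero_le _
    omega
  set r := Fintype.card (RVar (D + 1) p) with hrdef
  set L := Nat.clog 2 r with hL
  have hL1 : r ≤ 2 ^ L := Nat.le_pow_clog (by norm_num) r
  have hL2 : 2 ^ L < 2 * r := by
    have h1 := Nat.pow_pred_clog_lt_self (b := 2) (by norm_num) hr2
    have h2 : 0 < L := Nat.clog_pos (by norm_num) hr2
    rw [← hL] at h1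
    have h3 : 2 ^ L = 2 ^ L.pred * 2 := by
      rw [← pow_succ]
      congr 1
      exact (Nat.succ_pred_eq_of_pos h2).symm
    omega
  obtain ⟨M0, m1, m2, m3⟩ := sel_circuit (D + 1) p L
  have hsz : M0.size ≤ S := by
    calc M0.size ≤ r * (3 * 2 ^ L + 1) := m3
      _ ≤ B * (6 * B) := Nat.mul_le_mul hr (by omega)
      _ = 6 * B ^ 2 := by ring
      _ ≤ S := hS
  obtain ⟨M, f1, f2, f3⟩ := pad_nots M0 m2 S hsz
  set E := selEquiv (D + 1) p L with hE
  have h1 : Fintype.card (RVar (D + 1) p) ≤ Fintype.card (Fin (2 ^ L)) := by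
    rw [Fintype.card_fin]
    exact hL1
  obtain ⟨emb⟩ := Function.Embedding.nonempty_of_card_le h1
  refine ⟨_, M, Finset.univ.image (fun e => E (Sum.inl (emb e))), f3, f2, ?_, ?_⟩
  · refine Finset.card_image_le.trans ?_
    rw [Finset.card_univ]
    exact hr
  · intro C hC hneg
    refine sel_lower (D + 1) p L hlow C E (fun X => (hC X).trans ((f1 X).trans (m1 X))) emb
      emb.injective (fun e => hneg _ (Finset.mem_image_of_mem _ (Finset.mem_univ e)))

theorem hard_protected (D S : ℕ) (hS : 6 * ((D + 2) ^ 123) ^ 2 ≤ S) :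
    ∃ (n : ℕ) (M : Circuit n) (P : Finset (Fin n)), M.size = S ∧ M.nots = 0 ∧
      P.card ≤ (D + 2) ^ 123 ∧
      ∀ C : Circuit n, (∀ x, C.eval x = M.eval x) → (∀ v ∈ P, ¬ C.NegOccurs v) →
        D < C.depth := by
  have hp : 2 ≤ (D + 2) ^ 40 := by
    calc 2 ≤ D + 2 := by omega
      _ = (D + 2) ^ 1 := (pow_one _).symm
      _ ≤ (D + 2) ^ 40 := Nat.pow_le_pow_right (by omega) (by norm_num)
  exact hard_aux D ((D + 2) ^ 123) S ((D + 2) ^ 40) hp (card_rvar_le D)
    (fun F hF => gad_lower (D + 1) (Nat.succ_le_succ (Nat.zero_le _)) F hF) hS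

theorem exists_large (c k : ℕ) : ∃ N : ℕ, ∀ S : ℕ, N ≤ S → 2 ≤ S ∧
    ((c : ℝ) + 2) ^ 123 ≤ Real.logb 2 S ∧ 6 * (Real.logb 2 S ^ (123 * k + 1)) ^ 2 ≤ S := by
  have hl2 := Real.log_pos (show (1 : ℝ) < 2 by norm_num)
  have h1 := (Real.isLittleO_pow_log_id_atTop (n := (123 * k + 1) * 2)).bound
    (show (0 : ℝ) < (Real.log 2) ^ ((123 * k + 1) * 2) / 6 by positivity)
  have h2 := tendsto_natCast_atTop_atTop (R := ℝ)
  have h3 : Filter.Tendsto (fun n : ℕ => Real.logb 2 (n : ℝ)) Filter.atTop Filter.atTop :=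
    (Real.tendsto_logb_atTop (by norm_num)).comp h2
  have h4 := ((h3.eventually_ge_atTop (((c : ℝ) + 2) ^ 123)).and (h2.eventually h1)).and
    (Filter.eventually_ge_atTop 2)
  obtain ⟨N, hN⟩ := Filter.eventually_atTop.mp h4
  refine ⟨N, fun S hS => ?_⟩
  obtain ⟨⟨h5, h6⟩, h7⟩ := hN S hS
  refine ⟨h7, h5, ?_⟩
  have h8 : (1 : ℝ) ≤ S := by exact_mod_cast (by omega : 1 ≤ S)
  have h9 : 0 ≤ Real.log S := Real.log_nonneg h8
  rw [Real.norm_of_nonneg (by positivity), id, Real.norm_of_nonneg (by positivity)] at h6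
  rw [← pow_mul, Real.logb, div_pow]
  generalize (123 * k + 1) * 2 = e at h6 ⊢
  have h10 : 0 < Real.log 2 ^ e := by positivity
  rw [← mul_div_assoc, div_le_iff₀ h10]
  nlinarith

end Pool.Agent.BoolCirc
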